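import Mathlib
import Pool.Agent.Q60.D3.Defs

/-!
# Abelian varieties of unitary type, and the classes generated by divisors, Weil classes and the
Hodge classes on abelian varieties of CM type
-/

namespace Pool.Agent.Q180.UW

open Polynomial Pool.Agent.H204R3.CM Pool.Agent.Q60.D3

/-- `E = ℚ[x] / (P)` is a CM field of degree `e`: the polynomial `P` is irreducible of degree `e`, it
has no real roots, and complex conjugation on the roots of `P` is given by one element `r` of `E`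
(so it commutes with all embeddings of `E`). -/
def IsCMField (e : ℕ) (P : ℚ[X]) : Prop :=
  Irreducible P ∧ P.natDegree = e ∧ ∃ r : ℚ[X], ∀ μ : ℂ, aeval μ P = 0 →
    starRingEnd ℂ μ ≠ μ ∧ starRingEnd ℂ μ = aeval μ r

/-- The field `ℚ[x] / (P)` acts on the abelian variety `B` of dimension `e / 2` through `χ` (so `B` is
of CM type if `P` has degree `e`) and there is a nonzero homomorphism `i : B → Y` compatible with
`h`. -/
def HasCMPart (e : ℕ) (Y : AV) (h : Y.H →ₗ[ℚ] Y.H) : Prop :=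
  ∃ (B : AV) (χ : B.H →ₗ[ℚ] B.H) (i : B.H →ₗ[ℚ] Y.H), 2 * Module.finrank ℂ B.T = e ∧
    IsHom B B χ ∧ IsHom B Y i ∧ i ≠ 0 ∧ ∀ w, i (χ w) = h (i w)

/-- `f` is a Weil class of a CM field `E` of degree `e` on an abelian variety `Y` of dimension `e M`
on which `E` acts (so `H_1(Y, ℚ)` is an `E`-vector space of dimension `2 M`), with a factor of CM type
of dimension `e / 2` stable under `E`: `f ∈ H^(2 M)(Y, ℚ)` is a Hodge class, and the generator `h` of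
`E` may be moved in `f` from each variable to each other variable (so `f` lies in the line
`Λ^(2 M)_E H¹(Y, ℚ)` over the field `E`). -/
def IsWeilClass (e M : ℕ) (Y : AV) (f : Y.H [⋀^Fin (2 * M)]→ₗ[ℚ] ℚ) : Prop :=
  Module.finrank ℂ Y.T = e * M ∧ IsHodge Y.per f ∧
    ∃ (P : ℚ[X]) (h : Y.H →ₗ[ℚ] Y.H), IsCMField e P ∧ IsHom Y Y h ∧ aeval h P = 0 ∧
      (∀ (v : Fin (2 * M) → Y.H) (k l : Fin (2 * M)),
        f (Function.update v k (h (v k))) = f (Function.update v l (h (v l)))) ∧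
      HasCMPart e Y h

/-- The smallest system of cohomology classes `f ∈ H^κ(X, ℚ)` of complex abelian varieties `X`
(alternating forms on `H_1(X, ℚ)` in variables indexed by the finite set `κ`) which contains the
Hodge classes of degree two, the Weil classes of CM fields of degree `e` on abelian varieties of
dimension `e M` for `(e, M) ∈ 𝒲`, and the Hodge classes on abelian varieties isogenous to a product of
members of CM type of the class `𝒞`, and which is stable under linear combinations, cup products,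
pull-backs along homomorphisms and push-forwards along projections `X × Y → X`. -/
inductive Gen (𝒲 : Set (ℕ × ℕ)) (𝒞 : AV → Prop) :
    (X : AV) → (κ : Type) → (X.H [⋀^κ]→ₗ[ℚ] ℚ) → Prop
  /-- classes of degree zero -/
  | unit {X : AV} {κ : Type} [IsEmpty κ] (f : X.H [⋀^κ]→ₗ[ℚ] ℚ) : Gen 𝒲 𝒞 X κ f
  /-- Hodge classes of degree two -/
  | divisor {X : AV} {κ : Type} (hκ : Nat.card κ = 2) (f : X.H [⋀^κ]→ₗ[ℚ] ℚ)
      (hf : IsHodge X.per f) : Gen 𝒲 𝒞 X κ f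
  /-- Weil classes -/
  | weil {Y : AV} {e M : ℕ} (he : (e, M) ∈ 𝒲) (f : Y.H [⋀^Fin (2 * M)]→ₗ[ℚ] ℚ)
      (hf : IsWeilClass e M Y f) : Gen 𝒲 𝒞 Y (Fin (2 * M)) f
  /-- Hodge classes on abelian varieties of CM type -/
  | cm {Y : AV} {κ ι : Type} [Finite ι] (B : ι → AV) (hB : ∀ i, IsCM (B i) ∧ 𝒞 (B i))
      (hY : IsIsogenousToProd Y B) (f : Y.H [⋀^κ]→ₗ[ℚ] ℚ) (hf : IsHodge Y.per f) :
      Gen 𝒲 𝒞 Y κ f
  | zero (X : AV) (κ : Type) : Gen 𝒲 𝒞 X κ 0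
  | add {X : AV} {κ : Type} (f g : X.H [⋀^κ]→ₗ[ℚ] ℚ) (hf : Gen 𝒲 𝒞 X κ f)
      (hg : Gen 𝒲 𝒞 X κ g) : Gen 𝒲 𝒞 X κ (f + g)
  | smul {X : AV} {κ : Type} (a : ℚ) (f : X.H [⋀^κ]→ₗ[ℚ] ℚ) (hf : Gen 𝒲 𝒞 X κ f) :
      Gen 𝒲 𝒞 X κ (a • f)
  /-- renaming of the variables -/
  | reindex {X : AV} {κ κ' : Type} (e : κ ≃ κ') (f : X.H [⋀^κ]→ₗ[ℚ] ℚ)
      (hf : Gen 𝒲 𝒞 X κ f) : Gen 𝒲 𝒞 X κ' (f.domDomCongr e)
  /-- cup products (up to a factor) -/
  | cup {X : AV} {κ κ' : Type} [Fintype κ] [DecidableEq κ] [Fintype κ'] [DecidableEq κ']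
      (f : X.H [⋀^κ]→ₗ[ℚ] ℚ) (g : X.H [⋀^κ']→ₗ[ℚ] ℚ) (hf : Gen 𝒲 𝒞 X κ f)
      (hg : Gen 𝒲 𝒞 X κ' g) (h : X.H [⋀^κ ⊕ κ']→ₗ[ℚ] ℚ)
      (hh : ∀ v : κ ⊕ κ' → X.H, h v = ∑ σ : Equiv.Perm (κ ⊕ κ'), ((Equiv.Perm.sign σ : ℤ) : ℚ) *
        (f (fun k => v (σ (Sum.inl k))) * g (fun k => v (σ (Sum.inr k))))) :
      Gen 𝒲 𝒞 X (κ ⊕ κ') h
  /-- pull-back along a homomorphism -/
  | pull {X Y : AV} {κ : Type} (h : X.H →ₗ[ℚ] Y.H) (hh : IsHom X Y h)
      (f : Y.H [⋀^κ]→ₗ[ℚ] ℚ) (hf : Gen 𝒲 𝒞 Y κ f) : Gen 𝒲 𝒞 X κ (f.compLinearMap h)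
  /-- push-forward (integration over the fibres) along the projection `X × Y → X`: insert a basis
  of `H_1(Y, ℚ)` -/
  | push {X Y : AV} {κ κ' : Type} (b : Module.Basis κ' ℚ Y.H)
      (f : (X.prod Y).H [⋀^κ ⊕ κ']→ₗ[ℚ] ℚ) (hf : Gen 𝒲 𝒞 (X.prod Y) (κ ⊕ κ') f)
      (g : X.H [⋀^κ]→ₗ[ℚ] ℚ)
      (hg : ∀ v : κ → X.H,
        g v = f (Sum.elim (fun k => ((v k, 0) : X.H × Y.H)) (fun k => ((0, b k) : X.H × Y.H)))) :
      Gen 𝒲 𝒞 X κ g

/-- The dimension of the eigenspace of `C` for the eigenvalue `μ`. -/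
noncomputable def mult {T : Type} [AddCommGroup T] [Module ℂ T] (C : T →ₗ[ℂ] T) (μ : ℂ) : ℕ :=
  Module.finrank ℂ (LinearMap.ker (C - μ • (LinearMap.id : T →ₗ[ℂ] T)))

/-- The abelian variety `A` is of unitary type `(e, M)`: a CM field `E` of degree `e` acts on `A` (its
generator acts on the homology as `φ`, on the tangent space as `C`) and is its own centralizer in
`End (A) ⊗ ℚ`; the rank `n = 2 dim (A) / e` is at least three; for all embeddings `μ` of `E` the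
multiplicity of `μ` on the tangent space (the eigenvalue `μ` of `C`) is at least `1` and at most `M`;
for one embedding the multiplicities of the embedding and of its complex conjugate (with sum `n`) are
coprime. -/
def IsUnitary (A : AV) (e M : ℕ) : Prop :=
  ∃ (P : ℚ[X]) (φ : A.H →ₗ[ℚ] A.H) (C : A.T →ₗ[ℂ] A.T) (n : ℕ), IsCMField e P ∧
    (∀ w, C (A.per w) = A.per (φ w)) ∧ aeval φ P = 0 ∧ 2 * Module.finrank ℂ A.T = e * n ∧
    3 ≤ n ∧ (∀ h : A.H →ₗ[ℚ] A.H, IsHom A A h → h ∘ₗ φ = φ ∘ₗ h → ∃ q : ℚ[X], h = aeval φ q) ∧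
    (∀ μ : ℂ, aeval μ P = 0 → 1 ≤ mult C μ ∧ mult C μ ≤ M) ∧
    ∃ μ : ℂ, aeval μ P = 0 ∧ Nat.Coprime (mult C μ) (mult C (starRingEnd ℂ μ))

end Pool.Agent.Q180.UW
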