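import Mathlib
import Pool.Agent.Q60.D3.Stm
import Pool.Agent.Q180.UW.Defs

/-!
# Project UW: statements of the lemma jobs, abstract part

This is project WT (`Pool.Agent.Q180.WT.StmA`, all jobs done) for arbitrary CM fields in the place of
imaginary quadratic fields and with an additional kind of generators, the Hodge classes on abelian
varieties of CM type (as in project D3C, `Pool.Agent.Q60.D3C.Stm`, all jobs done).
-/

namespace Pool.Agent.Q180.UW

open Polynomial Pool.Agent.H204R3.CM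
open Pool.Agent.Q60.D3 (AV IsHom IsCM IsIsogenousToProd cx mulF HasWeight conjF cxM)

/-- The complex span of the generated classes. -/
noncomputable def GC (𝒲 : Set (ℕ × ℕ)) (𝒞 : AV → Prop) (X : AV) (κ : Type) :
    Submodule ℂ (X.H [⋀^κ]→ₗ[ℚ] ℂ) :=
  Submodule.span ℂ {F | ∃ f, Gen 𝒲 𝒞 X κ f ∧ F = cx f}

/-- The alternation of the complex valued form `F` is in the complex span of the generated
classes. -/
def Good (𝒲 : Set (ℕ × ℕ)) (𝒞 : AV → Prop) (X : AV) (κ : Type) [Fintype κ] [DecidableEq κ]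
    (F : MultilinearMap ℚ (fun _ : κ => X.H) ℂ) : Prop :=
  MultilinearMap.alternatization F ∈ GC 𝒲 𝒞 X κ

/-- The abelian variety `A` is isogenous to a member of CM type of the class `𝒞`. -/
def InC (𝒞 : AV → Prop) (A : AV) : Prop :=
  ∃ (B : AV) (p : A.H →ₗ[ℚ] B.H), IsCM B ∧ 𝒞 B ∧ IsHom A B p ∧ Function.Bijective p

/-- The form `δ` in `n` variables on `A` is a determinant on the eigenspace for the eigenvalue `μ` of
a generator `φ` of a CM field `E = ℚ[x] / (P)` of degree `e` with `dim_E H_1 (A) = n`; `s σ` (to be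
the weight of the conjugate of `δ` under `σ`) depends only on `σ μ`, changes the sign under complex
conjugation and is `p - (n - p)` with `p ≤ M`, where `(e, M) ∈ 𝒲`. -/
def IsU (𝒲 : Set (ℕ × ℕ)) (A : AV) (n : ℕ) (δ : A.H [⋀^Fin n]→ₗ[ℚ] ℂ)
    (s : (ℂ ≃+* ℂ) → ℤ) : Prop :=
  ∃ (e M : ℕ) (P : ℚ[X]) (φ : A.H →ₗ[ℚ] A.H) (μ : ℂ), (e, M) ∈ 𝒲 ∧ IsCMField e P ∧
    IsHom A A φ ∧ aeval φ P = 0 ∧ 2 * Module.finrank ℂ A.T = e * n ∧ aeval μ P = 0 ∧
    (∀ (v : Fin n → A.H) (k : Fin n), δ (Function.update v k (φ (v k))) = μ * δ v) ∧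
    (∀ σ τ : ℂ ≃+* ℂ, σ μ = τ μ → s σ = s τ) ∧
    (∀ σ τ : ℂ ≃+* ℂ, τ μ = starRingEnd ℂ (σ μ) → s τ = -s σ) ∧
    (∀ σ, ∃ p : ℕ, s σ = 2 * (p : ℤ) - n ∧ p ≤ M) ∧ n < 2 * M

/-- The data of a factor of a monomial: an alternating form `δ` on `A` such that all its conjugates
have a weight, which is a coordinate (`n = 1`) on an abelian variety of CM type in the class `𝒞`, or a
determinant form as above. -/
structure Itm (𝒲 : Set (ℕ × ℕ)) (𝒞 : AV → Prop) (A : AV) (n : ℕ) where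
  δ : A.H [⋀^Fin n]→ₗ[ℚ] ℂ
  s : (ℂ ≃+* ℂ) → ℤ
  wt : ∀ σ, HasWeight A.per (conjF σ δ.toMultilinearMap) (s σ)
  kind : (n = 1 ∧ InC 𝒞 A) ∨ IsU 𝒲 A n δ s

/-- The data of a monomial on `X`: forms as above composed with homomorphisms from `X`, and rational
bilinear Hodge forms on `X`. -/
structure Mon (𝒲 : Set (ℕ × ℕ)) (𝒞 : AV → Prop) (X : AV) (κ : Type) where
  /-- the number of the determinants -/
  m : ℕ
  n : Fin m → ℕ
  A : Fin m → AV
  D : ∀ j, Itm 𝒲 𝒞 (A j) (n j)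
  h : ∀ (j : Fin m), Fin (n j) → (X.H →ₗ[ℚ] (A j).H)
  hh : ∀ (j : Fin m) (k : Fin (n j)), IsHom X (A j) (h j k)
  /-- the number of the bilinear forms -/
  p : ℕ
  β : Fin p → MultilinearMap ℚ (fun _ : Fin 2 => X.H) ℚ
  hβ : ∀ q, HasWeight X.per (cxM (β q)) 0
  e : (Σ j : Fin m, Fin (n j)) ⊕ (Fin p × Fin 2) ≃ κ

/-- The value of the monomial. -/
noncomputable def Mon.val {𝒲 : Set (ℕ × ℕ)} {𝒞 : AV → Prop} {X : AV} {κ : Type}
    (M : Mon 𝒲 𝒞 X κ) (v : κ → X.H) : ℂ :=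
  (∏ j, (M.D j).δ fun k => M.h j k (v (M.e (Sum.inl ⟨j, k⟩)))) *
    ∏ q, ((M.β q fun a => v (M.e (Sum.inr (q, a))) : ℚ) : ℂ)

/-- The monomial is balanced: all its conjugates have weight zero. -/
def Mon.Balanced {𝒲 : Set (ℕ × ℕ)} {𝒞 : AV → Prop} {X : AV} {κ : Type} (M : Mon 𝒲 𝒞 X κ) : Prop :=
  ∀ σ : ℂ ≃+* ℂ, ∑ j, (M.D j).s σ = 0

/-- JOB UGEN. If the complex form given by the rational form `f` is in the complex span of the
generated classes, then `f` is generated. (As `Pool.Agent.Q121.WT.desc`.) -/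
def S_desc : Prop :=
  ∀ (𝒲 : Set (ℕ × ℕ)) (𝒞 : AV → Prop) (X : AV) (κ : Type) (f : X.H [⋀^κ]→ₗ[ℚ] ℚ),
    cx f ∈ GC 𝒲 𝒞 X κ → Gen 𝒲 𝒞 X κ f

/-- JOB UGEN. Alternating forms. (As `Pool.Agent.Q121.WT.good_alt`.) -/
def S_good_alt : Prop :=
  ∀ (𝒲 : Set (ℕ × ℕ)) (𝒞 : AV → Prop) (X : AV) (κ : Type) [Fintype κ] [DecidableEq κ]
    (F : X.H [⋀^κ]→ₗ[ℚ] ℂ), Good 𝒲 𝒞 X κ F.toMultilinearMap ↔ F ∈ GC 𝒲 𝒞 X κ

/-- JOB UGEN. Linear combinations. (As `Pool.Agent.Q121.WT.good_lin`.) -/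
def S_good_lin : Prop :=
  ∀ (𝒲 : Set (ℕ × ℕ)) (𝒞 : AV → Prop) (X : AV) (κ : Type) [Fintype κ] [DecidableEq κ],
    (∀ F G : MultilinearMap ℚ (fun _ : κ => X.H) ℂ, Good 𝒲 𝒞 X κ F → Good 𝒲 𝒞 X κ G →
      Good 𝒲 𝒞 X κ (F + G)) ∧
    (∀ (c : ℂ) (F : MultilinearMap ℚ (fun _ : κ => X.H) ℂ), Good 𝒲 𝒞 X κ F →
      Good 𝒲 𝒞 X κ (c • F)) ∧
    Good 𝒲 𝒞 X κ 0

/-- JOB UGEN. Renaming of the variables. (As `Pool.Agent.Q121.WT.good_reindex`.) -/
def S_good_reindex : Prop :=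
  ∀ (𝒲 : Set (ℕ × ℕ)) (𝒞 : AV → Prop) (X : AV) (κ κ' : Type) [Fintype κ] [DecidableEq κ]
    [Fintype κ'] [DecidableEq κ'] (e : κ ≃ κ') (F : MultilinearMap ℚ (fun _ : κ => X.H) ℂ),
    Good 𝒲 𝒞 X κ F → Good 𝒲 𝒞 X κ' (F.domDomCongr e)

/-- JOB UGEN. Products. (As `Pool.Agent.Q121.WT.good_mul`.) -/
def S_good_mul : Prop :=
  ∀ (𝒲 : Set (ℕ × ℕ)) (𝒞 : AV → Prop) (X : AV) (κ κ' : Type) [Fintype κ] [DecidableEq κ]
    [Fintype κ'] [DecidableEq κ'] (F : MultilinearMap ℚ (fun _ : κ => X.H) ℂ)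
    (G : MultilinearMap ℚ (fun _ : κ' => X.H) ℂ),
    Good 𝒲 𝒞 X κ F → Good 𝒲 𝒞 X κ' G → Good 𝒲 𝒞 X (κ ⊕ κ') (mulF F G)

/-- JOB UGEN. Pull-backs. (As `Pool.Agent.Q121.WT.good_pull`.) -/
def S_good_pull : Prop :=
  ∀ (𝒲 : Set (ℕ × ℕ)) (𝒞 : AV → Prop) (X Y : AV) (κ : Type) [Fintype κ] [DecidableEq κ]
    (h : X.H →ₗ[ℚ] Y.H), IsHom X Y h → ∀ F : MultilinearMap ℚ (fun _ : κ => Y.H) ℂ,
    Good 𝒲 𝒞 Y κ F → Good 𝒲 𝒞 X κ (F.compLinearMap fun _ => h)

/-- JOB UINS. Contraction over an abelian variety `Y`: if `F(x) η(w)` and `G(x) η'(w)` are good on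
`X × Y`, and the product of `η` and `η'` is a nonzero form of the top degree, then `F G` is good on
`X` (cup product and push-forward along `X × Y → X`). (As `Pool.Agent.Q121.WT.ins`.) -/
def S_ins : Prop :=
  ∀ (𝒲 : Set (ℕ × ℕ)) (𝒞 : AV → Prop) (X Y : AV) (κ κ' : Type) [Fintype κ] [DecidableEq κ]
    [Fintype κ'] [DecidableEq κ'] (k k' : ℕ)
    (b : Module.Basis (Fin k ⊕ Fin k') ℚ Y.H) (η : Y.H [⋀^Fin k]→ₗ[ℚ] ℂ)
    (η' : Y.H [⋀^Fin k']→ₗ[ℚ] ℂ),
    (∑ σ : Equiv.Perm (Fin k ⊕ Fin k'), ((Equiv.Perm.sign σ : ℤ) : ℂ) *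
      (η (fun a => b (σ (Sum.inl a))) * η' (fun a => b (σ (Sum.inr a))))) ≠ 0 →
    ∀ (F : MultilinearMap ℚ (fun _ : κ => X.H) ℂ) (G : MultilinearMap ℚ (fun _ : κ' => X.H) ℂ)
      (F' : MultilinearMap ℚ (fun _ : κ ⊕ Fin k => (X.prod Y).H) ℂ)
      (G' : MultilinearMap ℚ (fun _ : κ' ⊕ Fin k' => (X.prod Y).H) ℂ),
    (∀ v : κ ⊕ Fin k → X.H × Y.H,
      F' v = F (fun a => (v (Sum.inl a)).1) * η (fun a => (v (Sum.inr a)).2)) →
    (∀ v : κ' ⊕ Fin k' → X.H × Y.H,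
      G' v = G (fun a => (v (Sum.inl a)).1) * η' (fun a => (v (Sum.inr a)).2)) →
    Good 𝒲 𝒞 (X.prod Y) (κ ⊕ Fin k) F' → Good 𝒲 𝒞 (X.prod Y) (κ' ⊕ Fin k') G' →
    Good 𝒲 𝒞 X (κ ⊕ κ') (mulF F G)

/-- JOB UPOL (polarization). If `δ(a) η(w)` is good on `A × Y` then so is
`δ(h_0 x_0, ..., h_(n-1) x_(n-1)) η(w)` on `X × Y`, for homomorphisms `h_k : X → A`. (As
`Pool.Agent.Q121.WT.pol'`.) -/
def S_pol : Prop :=
  ∀ (𝒲 : Set (ℕ × ℕ)) (𝒞 : AV → Prop) (X A Y : AV) (n k : ℕ) (δ : A.H [⋀^Fin n]→ₗ[ℚ] ℂ)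
    (η : Y.H [⋀^Fin k]→ₗ[ℚ] ℂ)
    (G : MultilinearMap ℚ (fun _ : Fin n ⊕ Fin k => (A.prod Y).H) ℂ),
    (∀ v : Fin n ⊕ Fin k → A.H × Y.H,
      G v = δ (fun a => (v (Sum.inl a)).1) * η (fun a => (v (Sum.inr a)).2)) →
    Good 𝒲 𝒞 (A.prod Y) (Fin n ⊕ Fin k) G →
    ∀ h : Fin n → (X.H →ₗ[ℚ] A.H), (∀ a, IsHom X A (h a)) →
    ∀ G' : MultilinearMap ℚ (fun _ : Fin n ⊕ Fin k => (X.prod Y).H) ℂ,
    (∀ v : Fin n ⊕ Fin k → X.H × Y.H,
      G' v = δ (fun a => h a (v (Sum.inl a)).1) * η (fun a => (v (Sum.inr a)).2)) →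
    Good 𝒲 𝒞 (X.prod Y) (Fin n ⊕ Fin k) G'

/-- JOB UCONV. The generated classes are Hodge classes. (As `Pool.Agent.Q247.WT.conv`, and one trivial
case more.) -/
def S_conv : Prop :=
  ∀ (𝒲 : Set (ℕ × ℕ)) (𝒞 : AV → Prop) (X : AV) (κ : Type) (f : X.H [⋀^κ]→ₗ[ℚ] ℚ),
    Gen 𝒲 𝒞 X κ f → Finite κ → IsHodge X.per f

/-- JOB UWEIL. The form `δ(x) η(w)` on `A × Y` is good, where `δ` and `η` are determinants on the
eigenspaces of generators of the same CM field for the same eigenvalue, with opposite weights, `Y` with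
a factor of CM type. Proof: let `F` be the alternation of `G`, `h = φ × ψ` and `N = n + k = 2 M`. As
`G` is multiplied by `μ` if `h` is applied to one variable, so is `F`. For each rational linear
function `lam : ℂ → ℚ` the rational form `lam ∘ F` is a Hodge class by `S_L0` and `S_hodge` of D3
(`Pool.Agent.Q210.D3`; all conjugates of `F` have weight `0`), and
`(lam ∘ F) (.. h v_k ..) = lam (μ F v)` does not depend on `k`: it is a Weil class on `A × Y`, a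
variety of dimension `e (n + k) / 2 = e M` (the CM part of `Y` is one of `A × Y`). Finally `F` is a
complex combination of the forms `lam ∘ F` (its values lie in a finite dimensional rational space).
Compare `Pool.Agent.Q237.WT.weil`. -/
def S_weil : Prop :=
  ∀ (𝒲 : Set (ℕ × ℕ)) (𝒞 : AV → Prop) (A Y : AV) (e M n k : ℕ) (P : ℚ[X])
    (φ : A.H →ₗ[ℚ] A.H) (ψ : Y.H →ₗ[ℚ] Y.H) (μ : ℂ) (δ : A.H [⋀^Fin n]→ₗ[ℚ] ℂ)
    (η : Y.H [⋀^Fin k]→ₗ[ℚ] ℂ) (s : (ℂ ≃+* ℂ) → ℤ),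
    (e, M) ∈ 𝒲 → IsCMField e P → IsHom A A φ → IsHom Y Y ψ → aeval φ P = 0 → aeval ψ P = 0 →
    2 * Module.finrank ℂ A.T = e * n → 2 * Module.finrank ℂ Y.T = e * k → n + k = 2 * M →
    (∀ (v : Fin n → A.H) (a : Fin n), δ (Function.update v a (φ (v a))) = μ * δ v) →
    (∀ (v : Fin k → Y.H) (a : Fin k), η (Function.update v a (ψ (v a))) = μ * η v) →
    (∀ σ, HasWeight A.per (conjF σ δ.toMultilinearMap) (s σ)) →
    (∀ σ, HasWeight Y.per (conjF σ η.toMultilinearMap) (-s σ)) → HasCMPart e Y ψ →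
    ∀ G : MultilinearMap ℚ (fun _ : Fin n ⊕ Fin k => (A.prod Y).H) ℂ,
    (∀ v : Fin n ⊕ Fin k → A.H × Y.H,
      G v = δ (fun a => (v (Sum.inl a)).1) * η (fun a => (v (Sum.inr a)).2)) →
    Good 𝒲 𝒞 (A.prod Y) (Fin n ⊕ Fin k) G

/-- JOB UCMB. Abelian varieties with complex multiplication by the CM field `E = ℚ[x] / (P)` of the CM
type `ε`: `γ μ` is the coordinate belonging to the embedding `μ` of `E`.
Proof: `B.H = AdjoinRoot P`, `ψ` the multiplication by the root, `γ μ` the evaluation at `μ` (zero if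
`μ` is not a root), `B.T = {μ root // ε μ = 1} → ℂ`, `B.per w = (γ μ w)`. The span: the map
`w ↦ (γ μ w)` over all `e` roots is injective and its image spans `ℂ^e` over `ℂ` (Vandermonde); if a
real linear function `Re ∑ c μ u μ` vanishes on all `B.per w` then
`∑ (c μ γ μ w + conj (c μ) γ (conj μ) w) = 0` (as `conj (γ μ w) = γ (conj μ) w`, rational
polynomials), a relation between all `e` coordinates, so `c = 0`. Polarization: there is a rational
polynomial `a` with `0 < ε μ * Im (a μ)` for all roots: the polynomial of degree `< e` with the values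
`Complex.I * ε μ` at the roots (Lagrange) has real coefficients because its conjugate has the same
values; approximate its coefficients by rational numbers. Take the Hermitian form
`E (u, u') = ∑ (Im (a μ)) u μ conj (u' μ)` (over the roots with `ε μ = 1`, so `0 < Im (a μ)`); by
`conj (w μ) = w (conj μ)` and `Im (a (conj μ)) = - Im (a μ)` the number `Im E (v, w)` is
`(1 / (2 i)) ∑ Im (a μ) v μ w (conj μ) = - (1 / 4) ∑ (a μ - a (conj μ)) v μ w (conj μ)`, the sum over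
all roots, rational because `w (conj μ) = w (r μ)` with the polynomial `r` of `IsCMField` and the sum
of the values of a rational polynomial at all roots of `P` is rational. The weights: the coordinates
`μ` with `ε μ = 1` factor through `B.T`, the others are the complex conjugates of these. `IsCM`: the
algebra of the multiplications by elements of `AdjoinRoot P`. -/
def S_cmb : Prop :=
  ∀ (e : ℕ) (P : ℚ[X]), IsCMField e P → ∀ ε : ℂ → ℤ, (∀ μ, ε μ = 1 ∨ ε μ = -1) →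
    (∀ μ : ℂ, aeval μ P = 0 → ε (starRingEnd ℂ μ) = -ε μ) →
    ∃ (B : AV) (ψ : B.H →ₗ[ℚ] B.H) (γ : ℂ → (B.H →ₗ[ℚ] ℂ)), 2 * Module.finrank ℂ B.T = e ∧
      IsCM B ∧ IsHom B B ψ ∧ aeval ψ P = 0 ∧
      (∀ μ, aeval μ P = 0 → (∀ w, γ μ (ψ w) = μ * γ μ w) ∧
        (∀ (σ : ℂ ≃+* ℂ) (w : B.H), σ (γ μ w) = γ (σ μ) w) ∧
        ∀ F : MultilinearMap ℚ (fun _ : Fin 1 => B.H) ℂ, (∀ v, F v = γ μ (v 0)) →
          HasWeight B.per F (ε μ)) ∧
      ∀ w, (∀ μ, aeval μ P = 0 → γ μ w = 0) → w = 0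

/-- JOB UPOW. For a CM field `E` and a function `s` there is an abelian variety `Y` (a product of `k`
abelian varieties `B` with multiplication by `E` as in UCMB) with a determinant form `η` with the
weights `s σ`, a determinant of coordinates `L c` belonging to the embedding `μ`, such that the product
with the determinant `η'` of all other coordinates is a nonzero form of the top degree.
Proof: let `p σ` be the number with `s σ = 2 p σ - k`; it depends only on the root `ν = σ μ`, write it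
`p ν` (`Aut ℂ` acts transitively on the roots of the irreducible polynomial `P`). For `c < k` let
`ε_c ν = 1` if `c < p ν` and `-1` otherwise for the roots with positive imaginary part, and
`ε_c ν = - ε_c (conj ν)` for the roots with negative imaginary part (no root is real by `IsCMField`).
Then `∑ c, ε_c ν = 2 p ν - k` for all roots. Let `B c` be the abelian variety for `ε_c`
and `Y = ∏ B c` (iterated `AV.prod`, induction on `k`, or the construction of
`Pool.Agent.Q61.WT.Pow`), `ψ` the product of the `ψ_c`; `L c` is the coordinate `γ_μ` of `B c`, with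
the weights `ε_c (σ μ)` (since `σ ∘ γ_μ = γ_(σ μ)`); `η y = det (γ_μ (pr c (y a)))`, and `η'` is the
determinant of the other `k' = k (e - 1)` coordinates, with the weights `ε_c (σ ν)`; their sum over
`c` and `ν ≠ μ` is `- s σ` because the sum over all roots is zero. The sum over the permutations is
(up to the factor `k! k'!`) the determinant of all coordinates of a basis, which is not zero since the
coordinates are linearly independent over `ℂ` (they separate points by UCMB, and their number is the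
dimension). The CM part is `B 0`. -/
def S_pow : Prop :=
  ∀ (𝒲 : Set (ℕ × ℕ)) (𝒞 : AV → Prop) (e : ℕ) (P : ℚ[X]), IsCMField e P →
    (∀ B : AV, IsCM B → 2 * Module.finrank ℂ B.T = e → 𝒞 B) →
    ∀ μ : ℂ, aeval μ P = 0 → ∀ k : ℕ, 0 < k → ∀ s : (ℂ ≃+* ℂ) → ℤ,
    (∀ σ τ : ℂ ≃+* ℂ, σ μ = τ μ → s σ = s τ) →
    (∀ σ τ : ℂ ≃+* ℂ, τ μ = starRingEnd ℂ (σ μ) → s τ = -s σ) →
    (∀ σ, ∃ p : ℕ, s σ = 2 * (p : ℤ) - k ∧ p ≤ k) →
    ∃ (k' : ℕ) (Y : AV) (ψ : Y.H →ₗ[ℚ] Y.H) (η : Y.H [⋀^Fin k]→ₗ[ℚ] ℂ)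
      (η' : Y.H [⋀^Fin k']→ₗ[ℚ] ℂ) (b : Module.Basis (Fin k ⊕ Fin k') ℚ Y.H)
      (B : Fin k → AV) (pr : ∀ c, Y.H →ₗ[ℚ] (B c).H) (L : ∀ c, Itm 𝒲 𝒞 (B c) 1)
      (B' : Fin k' → AV) (pr' : ∀ c, Y.H →ₗ[ℚ] (B' c).H) (L' : ∀ c, Itm 𝒲 𝒞 (B' c) 1),
      IsHom Y Y ψ ∧ aeval ψ P = 0 ∧ 2 * Module.finrank ℂ Y.T = e * k ∧
      (∀ (v : Fin k → Y.H) (a : Fin k), η (Function.update v a (ψ (v a))) = μ * η v) ∧
      (∀ σ, HasWeight Y.per (conjF σ η.toMultilinearMap) (s σ)) ∧ HasCMPart e Y ψ ∧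
      (∀ c, InC 𝒞 (B c)) ∧ (∀ c, IsHom Y (B c) (pr c)) ∧
      (∀ c, InC 𝒞 (B' c)) ∧ (∀ c, IsHom Y (B' c) (pr' c)) ∧
      (∀ σ, ∑ c, (L c).s σ = s σ) ∧ (∀ σ, ∑ c, (L' c).s σ = -s σ) ∧
      (∀ y : Fin k → Y.H,
        η y = (Matrix.of fun a c : Fin k => (L c).δ fun _ => pr c (y a)).det) ∧
      (∀ y : Fin k' → Y.H,
        η' y = (Matrix.of fun a c : Fin k' => (L' c).δ fun _ => pr' c (y a)).det) ∧
      (∑ σ : Equiv.Perm (Fin k ⊕ Fin k'), ((Equiv.Perm.sign σ : ℤ) : ℂ) *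
        (η (fun a => b (σ (Sum.inl a))) * η' (fun a => b (σ (Sum.inr a))))) ≠ 0

/-- JOB UBAL. The balanced monomials are good. (Hypotheses `S_good_*`, `S_ins`, `S_pol`, `S_weil`,
`S_pow` of this file, `S_L0`, `S_hodge` of D3.)
Proof: induction on the number of the factors which are not coordinates on abelian varieties in `𝒞`
(of the first kind). (a) If all factors are of the first kind: the product of the coordinates
`γ_j (y_j)` on `Y0 = ∏ A j` (a product of abelian varieties isogenous to members of CM type of `𝒞`) has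
conjugates of weight `0`, so its alternation is a complex combination of Hodge classes on `Y0`
(`S_L0`, `S_hodge`), generated by `Gen.cm`; pull back along `X → Y0` (with the variable `j` mapped to
the factor `j`; see (a) in the proof of `bal` of project D3C, `S_bal` there) and multiply by the
bilinear forms. (b) Otherwise let `δ` be a factor of the second kind with `e M P φ μ s n`, the
function `- s` satisfies the hypotheses of `S_pow` for `k = 2 M - n > 0` (`- s σ = 2 (M - p) - k`, and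
`M - p ≤ k` because `n - p ≤ M` by the condition for the complex conjugate). With `Y`, `η`, `η'` from
`S_pow`: `δ(h x) η(w)` is good by `S_weil` and `S_pol`; the product of the other factors with `η'(w)`
is a combination of balanced monomials on `X × Y` with one factor of the second kind less (expand the
determinant `η'`), good by induction; and `S_ins` gives the claim. Compare
`Pool.Agent.Q61.WT.bal`. -/
def S_bal : Prop :=
  ∀ (𝒲 : Set (ℕ × ℕ)) (𝒞 : AV → Prop),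
    (∀ (e M : ℕ) (B : AV), (e, M) ∈ 𝒲 → IsCM B → 2 * Module.finrank ℂ B.T = e → 𝒞 B) →
    ∀ (X : AV) (κ : Type) [Fintype κ] [DecidableEq κ] (M : Mon 𝒲 𝒞 X κ), M.Balanced →
    ∀ F : MultilinearMap ℚ (fun _ : κ => X.H) ℂ, (∀ v, F v = M.val v) → Good 𝒲 𝒞 X κ F

end Pool.Agent.Q180.UW
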