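import Mathlib
import Pool.Agent.Q60.D3.Stm2
import Pool.Agent.Q60.D3.HomZ
import Pool.Agent.Y4.K.MainK
import Pool.Agent.W437.HR.Pcs
import Pool.Agent.Q180.WT.StmB
import Pool.Agent.Q180.UW.StmG

/-!
# Project UW: statements of the lemma jobs, Lie algebra part
-/

namespace Pool.Agent.Q180.UW

open Matrix Module Polynomial Pool.Agent.H204R3.CM Pool.Agent.H204R3.SP Pool.Agent.W437.HC
  Pool.Agent.W437.HD Pool.Agent.W437.HP Pool.Agent.W437.HR
open Pool.Agent.Q60.D3 (AV IsHom IsCM IsSimple IsIsogenousToProd cx mulF HasWeight conjF cxM ofZ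
  Comm)
open Pool.Agent.Y4.K (Pol Pr mu Eqv Iso)
open Pool.Agent.Y4.H (LZ Ct)
open Pool.Agent.Q59.GC (Labels Letter)
open Pool.Agent.Q180.WT (PB S_memtr S_tor)

/-! ## The factors whose places are coprime -/

/-- Data of an abelian variety with period matrix `Z`: a decomposition of the identity
`1 = ∑ r, V r * Q r` into primitive idempotents of the commutant of the Lie algebra, such that the
determinant form of the coordinates `Q r` is one of the forms admitted in the monomials; the number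
`n r` is one, or it is at least three and then all the numbers `p`, `n r - p` (the dimensions of the
eigenspaces of the conjugates of the Hodge operator) are positive, and coprime for one conjugate. -/
structure Fam (𝒲 : Set (ℕ × ℕ)) (𝒞 : AV → Prop) {g : ℕ} (Z : Matrix (Fin g) (Fin g) ℂ)
    (hZ : Zᵀ = Z) (hpos : (imM Z).PosDef) where
  R : Type
  [fR : Fintype R]
  [dR : DecidableEq R]
  n : R → ℕ
  Q : ∀ r, Matrix (Fin (n r)) (Fin g ⊕ Fin g) ℂ
  V : ∀ r, Matrix (Fin g ⊕ Fin g) (Fin (n r)) ℂ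
  QV : ∀ r, Q r * V r = 1
  tot : ∑ r, V r * Q r = 1
  mem : ∀ r, Ct Z (V r * Q r)
  prim : ∀ r c, Ct Z c → ∃ lam : ℂ, V r * Q r * c * (V r * Q r) = lam • (V r * Q r)
  L : ∀ r, Itm 𝒲 𝒞 (ofZ Z hZ hpos) (n r)
  hL : ∀ r (x : Fin (n r) → Fin g ⊕ Fin g → ℚ), (L r).δ x =
    (Matrix.of fun a b : Fin (n r) => (Q r *ᵥ fun i => ((x a i : ℚ) : ℂ)) b).det
  hs : ∀ r (σ : ℂ ≃+* ℂ),
    (((L r).s σ : ℤ) : ℂ) = trace ((DZ Z).map (σ.symm : ℂ →+* ℂ) * (V r * Q r))
  num : ∀ r, n r = 1 ∨ (3 ≤ n r ∧
    (∀ σ, ∃ p q : ℕ, 0 < p ∧ 0 < q ∧ p + q = n r ∧ (L r).s σ = (p : ℤ) - q) ∧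
    ∃ σ, ∃ p q : ℕ, p + q = n r ∧ (L r).s σ = (p : ℤ) - q ∧ Nat.Coprime p q)

attribute [instance] Fam.fR Fam.dR

/-- JOB UFAMC. Abelian varieties of CM type.
Proof: `Pool.Agent.Q60.D3C.S_cz` (done) gives a symplectic basis `u k`, `v k` of common eigenvectors of
all conjugates of the Hodge operator. `R = Fin g ⊕ Fin g`, `n r = 1`, `V r` the column `u k` or `v k`,
`Q r` the row `x ↦ om x (v k)` or `x ↦ om (u k) x`. `mem`: `V r * Q r` commutes with all conjugates of
`DZ Z`, hence with `LZ Z` (the Lie algebra generated by the images of `DZ Z` under rational linear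
functions is contained in the commutant of `c` if `c` commutes with all conjugates: use
`Pool.Agent.Y4.H` or the argument in `span_homs`). `prim`: a matrix of the form `V * Q * c * V * Q` with
`V` a column is a multiple of `V * Q`. The weights: `Pool.Agent.Q60.D3C.S_cwt` (done). -/
def S_famc : Prop :=
  ∀ (𝒲 : Set (ℕ × ℕ)) (𝒞 : AV → Prop) (g : ℕ) (Z : Matrix (Fin g) (Fin g) ℂ) (hZ : Zᵀ = Z)
    (hpos : (imM Z).PosDef), Comm Z → InC 𝒞 (ofZ Z hZ hpos) → Nonempty (Fam 𝒲 𝒞 Z hZ hpos)

/-- JOB ULIN (linear algebra over the field `E = ℚ[φ]`). The rational space `ℚ^B` is a vector space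
over the field `ℚ[x] / (P)`, of dimension `n`; choose a basis `x_1, ..., x_n`; each vector is
`∑ a, (q_a) (φ) x_a` with `q_a ∈ ℚ[x] / (P)`, and `Q μ` maps it to `(q_a (μ))_a`; the column `a` of
`V μ` is `ε μ *ᵥ x_a`, where `ε μ = (P / (x - μ)) (φ) / (P / (x - μ)) (μ)` is the projection to the
eigenspace (`P` is separable). (Or: `Q μ` for one root by a basis, the others by conjugation.) -/
def S_lin : Prop :=
  ∀ (B : Type) [Fintype B] [DecidableEq B] (P : ℚ[X]) (φ : Matrix B B ℚ) (n : ℕ), Irreducible P →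
    aeval φ P = 0 → Fintype.card B = P.natDegree * n →
    ∃ (Q : ℂ → Matrix (Fin n) B ℂ) (V : ℂ → Matrix B (Fin n) ℂ),
      (∀ μ, aeval μ P = 0 → Q μ * V μ = 1 ∧
        (∀ ν, aeval ν P = 0 → ν ≠ μ → Q μ * V ν = 0) ∧
        Q μ * cK ℂ φ = μ • Q μ ∧ cK ℂ φ * V μ = μ • V μ ∧
        ∀ σ : ℂ ≃+* ℂ, (Q μ).map (σ : ℂ →+* ℂ) = Q (σ μ) ∧ (V μ).map (σ : ℂ →+* ℂ) = V (σ μ)) ∧
      ∑ μ ∈ (P.aroots ℂ).toFinset, V μ * Q μ = 1

/-- JOB UMUL (multiplicities). The trace of the Hodge operator on the eigenspace of `μ` in the homology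
is `m - (n - m)`, `m` the multiplicity of `μ` on the tangent space, and the multiplicity of the complex
conjugate is `n - m`. Proof: `DZ Z` has the square `1`; its eigenspace for `1` in `ℂ^(2g)` is mapped
isomorphically to the tangent space `ℂ^g` by the complex linear extension of `perOne Z` (whose kernel
is the eigenspace for `-1`; see how `Pool.Agent.Q121.WT.uzx` gets `K.pos = p`), compatibly with
`φ` and `C`; so `m` is the dimension of the eigenspace of `1` of `DZ Z` on `range (V μ * Q μ)`.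
Complex conjugation maps `DZ Z` to `- DZ Z` and `V μ` to `V (conj μ)`, so the traces for `μ` and its
conjugate are opposite. -/
def S_mul : Prop :=
  ∀ (g : ℕ) (Z : Matrix (Fin g) (Fin g) ℂ) (_ : Zᵀ = Z) (_ : (imM Z).PosDef) (P : ℚ[X])
    (φ : Matrix (Fin g ⊕ Fin g) (Fin g ⊕ Fin g) ℚ) (n : ℕ)
    (C : (Fin g → ℂ) →ₗ[ℂ] (Fin g → ℂ)) (Q : ℂ → Matrix (Fin n) (Fin g ⊕ Fin g) ℂ)
    (V : ℂ → Matrix (Fin g ⊕ Fin g) (Fin n) ℂ),
    Irreducible P → aeval φ P = 0 → (∀ w, C (perOne Z w) = perOne Z (φ *ᵥ w)) →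
    (∀ μ, aeval μ P = 0 → Q μ * V μ = 1 ∧
      (∀ ν, aeval ν P = 0 → ν ≠ μ → Q μ * V ν = 0) ∧
      Q μ * cK ℂ φ = μ • Q μ ∧ cK ℂ φ * V μ = μ • V μ ∧
      ∀ σ : ℂ ≃+* ℂ, (Q μ).map (σ : ℂ →+* ℂ) = Q (σ μ) ∧ (V μ).map (σ : ℂ →+* ℂ) = V (σ μ)) →
    ∑ μ ∈ (P.aroots ℂ).toFinset, V μ * Q μ = 1 →
    ∀ μ, aeval μ P = 0 → mult C μ ≤ n ∧ mult C (starRingEnd ℂ μ) = n - mult C μ ∧
      trace (DZ Z * (V μ * Q μ)) = 2 * (mult C μ : ℂ) - n

/-- JOB UFAMU. Abelian varieties of unitary type. (Hypotheses `S_lin`, `S_mul`, `S_wgt` of D3.)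
Proof: transport `φ` and `C` to matrices by `e` and `C'`; `R` is the set of the roots of `P`, `n`, `Q`
and `V` from `S_lin`. `mem`: `V μ * Q μ` is a complex polynomial in `φ`. `prim`: let `c` commute with
the Lie algebra and `c' = ∑ ν, V ν Q ν c V ν Q ν`; it commutes with `φ` and with the Lie algebra; the
complex matrices which commute with `φ` and all conjugates of `DZ Z` are the complex combinations of
rational ones (a system of linear equations defined over `ℚ`, as in `span_homs`), which are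
homomorphisms (`hom_of_comm`), so polynomials in `φ` by `IsUnitary`; so `c'` is a complex polynomial
in `φ` and `V μ Q μ c V μ Q μ = V μ Q μ c'` is a multiple of `V μ Q μ`. The item `L μ`:
`δ` is the determinant of the coordinates; the conjugate under `σ` is the determinant for the root
`σ μ`, its weight is `trace (DZ Z * V (σ μ) Q (σ μ)) = 2 m (σ μ) - n` by `S_wgt` (compare
`Pool.Agent.Q202.WT.kon`), which is `σ` of `trace ((DZ Z).map σ.symm * (V μ * Q μ))` and an integer;
`m ≤ M` from `IsUnitary`; `n < 2 M` because `M` is at least the two coprime numbers with sum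
`n ≥ 3`. -/
def S_famu : Prop :=
  ∀ (𝒲 : Set (ℕ × ℕ)) (𝒞 : AV → Prop) (A : AV) (g : ℕ) (Z : Matrix (Fin g) (Fin g) ℂ)
    (e' : A.H ≃ₗ[ℚ] (Fin g ⊕ Fin g → ℚ)) (C' : A.T ≃ₗ[ℂ] (Fin g → ℂ)) (hZ : Zᵀ = Z)
    (hpos : (imM Z).PosDef), (∀ w, C' (A.per w) = perOne Z (e' w)) →
    ∀ e M : ℕ, (e, M) ∈ 𝒲 → IsUnitary A e M → Nonempty (Fam 𝒲 𝒞 Z hZ hpos)

/-- JOB UALN (alignment). For a product of abelian varieties with such data all places are coprime and
separated, no place is selfconjugate or of dimension two, and all places are isomorphic to the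
eigenspaces of the factors. Compare `Pool.Agent.Q211.WT.aln`: the matrices
`(PB i)ᵀ * (V r * Q r) * PB i` are primitive idempotents with sum one (for `prim`: for `c` in the
commutant `PB i * c * (PB i)ᵀ` is in the commutant of the factor); each primitive idempotent `φ` is
equivalent to one of them by `Pol.eqv_family`; `mu (act σ φ) = p` and `mu (bar (act σ φ)) = q` for the
numbers `p + q = n r`, `s σ = p - q`, since
`trace (DZ * act σ e) = σ (trace ((DZ).map σ.symm * e)) = s σ`. For `n r = 1` the two numbers are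
`1, 0` in some order, coprime. If `φ` is equivalent to `bar φ` then `p = q` for all `σ`, so `p = q = 1`
for the coprime one and `n r = 2`, excluded. Separation: `n r ≠ 1` for both places, so all the numbers
are positive, and the second alternative in `Sep` never holds. -/
def S_aln : Prop :=
  ∀ (𝒲 : Set (ℕ × ℕ)) (𝒞 : AV → Prop) (ι : Type) [Fintype ι] [DecidableEq ι] (g : ι → ℕ)
    (Z : ∀ i, Matrix (Fin (g i)) (Fin (g i)) ℂ) (hZ : ∀ i, (Z i)ᵀ = Z i)
    (hpos : ∀ i, (imM (Z i)).PosDef) (Fa : ∀ i, Fam 𝒲 𝒞 (Z i) (hZ i) (hpos i))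
    (M : Pol (bigD ℂ Z)),
    M.Cop ∧ M.Sep ∧
    (∀ φ : Pr (bigD ℂ Z), ¬ Eqv φ (M.bar φ) ∧ mu φ + mu (M.bar φ) ≠ 2) ∧
    ∀ φ : Pr (bigD ℂ Z), ∃ (i : ι) (r : (Fa i).R)
      (a c : Matrix (Fin (NB g) ⊕ Fin (NB g)) (Fin (NB g) ⊕ Fin (NB g)) ℂ),
      Ct (bigD ℂ Z) a ∧ Ct (bigD ℂ Z) c ∧ c * a = φ.e ∧
      a * c = (PB Z hZ hpos i)ᵀ * ((Fa i).V r * (Fa i).Q r) * PB Z hZ hpos i

/-! ## The union with the factors of symplectic type -/

/-- JOB UPCS. Products of period matrices which decompose into pieces with the full symplectic Lie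
algebra decompose in the same way (pieces `(i, a)`; `Blocks.full`, compare `Blocks.mem_MS` in
`Pool.Agent.W437.HR.Pcs`). -/
def S_pcs : Prop :=
  ∀ (ι : Type) [Fintype ι] [DecidableEq ι] (g : ι → ℕ)
    (Z : ∀ i, Matrix (Fin (g i)) (Fin (g i)) ℂ) (_ : ∀ i, (Z i)ᵀ = Z i)
    (_ : ∀ i, (imM (Z i)).PosDef), (∀ i, HasPcs (DZ (Z i))) → HasPcs (DZ (bigD ℂ Z))

/-- JOB UKIL. The Lie algebra `𝓛` acts by `ρ` on the symplectic space `N ≠ 0` as the full symplectic
Lie algebra, and by `τ` on the homology of an abelian variety with period matrix `Z`, whose places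
are coprime and separated, not selfconjugate, and not of dimension two; the Hodge operator is the
image of `δ` and `ρ δ` has square one. Then an element `X` with `τ X = 0` acts nontrivially on `N`.

Proof. Suppose that `τ X = 0` implies `ρ X = 0`; so there is a linear map `θ` on the image of `τ`
with `ρ X = θ (τ X)`, compatible with commutators. Use the frame `F : Fr M` of
`Pool.Agent.Q180.WT.Expw` (`exists_fr`): representatives `F.ρ p` of the places with the involution
`F.b`, `F.b p ≠ p`, the form `ω (x, y) = x ⬝ᵥ (F.O *ᵥ y)` pairing the space `V p` (the range of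
`(F.ρ p).e`) with `V (b p)`. Let `V p +`, `V p -` be the eigenspaces of `D = DZ Z` in `V p`; `ω` pairs
`V p +` with `V (b p) -`.
(1) For `u ∈ V p +`, `v ∈ V (b p) +` there is `X = X u v ∈ LZ Z` with `X z = ω (v, z) u + ω (u, z) v`
for all `z` in the sum of the `V q` (proof as in `Fr.exists_root`: `S = SS F.O u v`, `M.morita` and
`S_memtr`; the traces vanish because `ω (u, v) = 0`, both being in the eigenspace of `1`). It satisfies
`D X - X D = 2 X`, `X * X = 0` and, for all `Y` in the image of `τ`, `X Y X = ω (v, Y u) X`, hence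
`[X, [X, Y]] = - 2 ω (v, Y u) X`.
(2) Let `x = θ (X u v)`. Then `[ρ δ, x] = 2 x`, so `x * x = 0` as `(ρ δ)^2 = 1`, and
`x y x = ω (v, Y u) x` for `y = θ Y`; as `y` runs through all `EE b b'`, the operator `x` is zero or
`x = c • EE a a` (if `x b ≠ 0` then `x (EE b b) x` is a nonzero multiple of `EE (x b) (x b)`, and a
multiple of `x`).
(3) Let `n = dim V p ≥ 3` (places of dimension one have no roots). One of `V p +`, `V (b p) +` has
dimension at least two or one of them is zero (no roots); by symmetry (`X u v = X v u`) let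
`dim V p + ≥ 2` and `0 ≠ v ∈ V (b p) +`. In the linear space of the `θ (X u v)`, `u ∈ V p +`, all
elements are multiples of `EE a a`; if `EE a a + t EE b b` is such for all `t` then `a`, `b` are
proportional; so the space has dimension at most one and `θ (X u0 v) = 0` for some `u0 ≠ 0`.
(4) The set `I` of the `X ∈ LZ Z` with `θ X = 0` is an ideal. For `c ∈ V p -`, `d ∈ V (b p) -` let
`Y = X c d` (as in (1)) and `H = [X u0 v, Y] ∈ I`; for `u1 ∈ V p +` we get
`[H, X u1 v] = ω (d, u1) ω (v, c) X u0 v + ω (c, v) ω (u0, d) X u1 v`; choose `c`, `d` with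
`ω (c, v) ≠ 0`, `ω (u0, d) ≠ 0`: all `X u1 v ∈ I`. In the same way `X u0 v1 ∈ I` and then all
`X u1 v1 ∈ I`. So `θ` kills all `X u v` for all places.
(5) Take `a ∈ N`, `a ≠ 0`, `ρ δ a = a` (exists as `ρ δ` is in the symplectic Lie algebra and has square
one), `S = EE a a = ρ Y`, and let `Y' = (ad δ) (ad δ + 2) Y / 8`. Then `ρ Y' = S` (`[ρ δ, S] = 2 S`),
and `W = τ Y'` satisfies `[D, W] = 2 W` (on matrices `ad D` has the eigenvalues `0`, `2`, `-2`). For
each place let `u i` be a basis of `V p +`, `d i` the dual basis of `V (b p) -` (`ω (d i, u j)` is `1`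
for `i = j` and `0` otherwise), `v i = - W d i`: then `W = ∑ i, X (u i) (v i)` on `V p` and
on `V (b p)`. So `W` is half of the sum over all `p` and `i` of these elements: both sides commute with
the commutant and agree on the sum of the `V p`, so they are equal (`F.total`). Hence
`S = ρ Y' = θ W = 0`, a contradiction. -/
def S_kil : Prop :=
  ∀ (g : ℕ) (Z : Matrix (Fin g) (Fin g) ℂ) (M : Pol Z), M.Cop → M.Sep →
    (∀ φ : Pr Z, ¬ Eqv φ (M.bar φ) ∧ mu φ + mu (M.bar φ) ≠ 2) →
    ∀ (𝓛 : Type) [AddCommGroup 𝓛] [Module ℂ 𝓛] (br : 𝓛 → 𝓛 → 𝓛)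
      (N : Type) [AddCommGroup N] [Module ℂ N] [FiniteDimensional ℂ N] [Nontrivial N]
      (w : N →ₗ[ℂ] N →ₗ[ℂ] ℂ) (ρ : 𝓛 →ₗ[ℂ] Module.End ℂ N)
      (τ : 𝓛 →ₗ[ℂ] Matrix (Fin g ⊕ Fin g) (Fin g ⊕ Fin g) ℂ),
      (∀ x, w x x = 0) → (∀ x, (∀ y, w x y = 0) → x = 0) →
      (∀ X Y, ρ (br X Y) = ρ X * ρ Y - ρ Y * ρ X) → (∀ X, IsSp w (ρ X)) →
      (∀ x y, ∃ X, ρ X = EE w x y) →
      (∀ X Y, τ (br X Y) = τ X * τ Y - τ Y * τ X) →
      (∀ X c, Ct Z c → τ X * c = c * τ X) → (∀ X, (τ X)ᵀ * Om g ℂ + Om g ℂ * τ X = 0) →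
      (∀ W ∈ LZ Z, ∃ X, τ X = W) → ∀ δ, ρ δ * ρ δ = 1 → τ δ = DZ Z →
      ∃ X, τ X = 0 ∧ ρ X ≠ 0

/-- The bases for two blocks: the first (`true`) of symplectic type, the second (`false`) with
coprime and separated places. -/
structure Two (g : Bool → ℕ) (Z : ∀ b, Matrix (Fin (g b)) (Fin (g b)) ℂ) : Prop where
  hZ : ∀ b, (Z b)ᵀ = Z b
  hpos : ∀ b, (imM (Z b)).PosDef
  pcs : HasPcs (DZ (Z true))
  cop : ∀ M : Pol (Z false), M.Cop
  sep : ∀ M : Pol (Z false), M.Sep
  nsc : ∀ (M : Pol (Z false)) (φ : Pr (Z false)),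
    ¬ Eqv φ (M.bar φ) ∧ mu φ + mu (M.bar φ) ≠ 2

/-- JOB USPLIT (hypothesis `S_kil`). The space of the first block is the sum of pieces on which the
elements of the Lie algebra which vanish on the second block act as the full symplectic Lie algebra;
and the Lie algebra contains the elements of the Lie algebra of the second block, extended by zero.

Proof. Let `𝓛 = lieM (DZ (bigD ℂ Z)) ℂ`, `τ` the restriction of `bl ℂ false` and `N a`, `w a`, `π a` the
pieces of `T.pcs`, `ρ a` the action of `𝓛` on `N a` through `blL true`. The image of `τ` contains `LZ`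
of the second block (`LA_le`: it is closed under commutators and contains the images of the Hodge
operator under the rational linear functions, since `𝓛` does). `ρ a` is full (`Blocks.full` or
`pcs`). By `S_kil` the ideal `I` of the `X ∈ 𝓛` with `τ X = 0` acts nontrivially on `N a`, so it acts
as the full symplectic Lie algebra (`ideal_full`); this is the first claim. For the second let
`W = τ X0`. For pieces `a`, `b` isomorphic under `I` by an isometry `f` (`Lnk` in
`Pool.Agent.W437.HP.Sys`) the operator `f (ρ a X0) f⁻¹ - ρ b X0` commutes with `ρ b X` for all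
`X ∈ I` (as `[X0, X] ∈ I`), so it is a scalar, and in the symplectic Lie algebra, so zero. By
`Sys.lift_class` (applied to the Lie algebra `I`) there is `X1 ∈ I` which acts on all pieces as `X0`
(`ρ a X0` is a combination of operators `EE`, `mem_span_EE`, one representative `a` of each class of
isomorphic pieces); then `X = X0 - X1`. -/
def S_split : Prop :=
  ∀ (g : Bool → ℕ) (Z : ∀ b, Matrix (Fin (g b)) (Fin (g b)) ℂ) (T : Two g Z),
    (∃ (A : Type) (_ : Fintype A) (_ : DecidableEq A)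
      (N : A → Submodule ℂ (Fin (g true) ⊕ Fin (g true) → ℂ))
      (w : ∀ a, N a →ₗ[ℂ] N a →ₗ[ℂ] ℂ)
      (π : ∀ a, (Fin (g true) ⊕ Fin (g true) → ℂ) →ₗ[ℂ] N a)
      (hst : ∀ a, ∀ X ∈ lieM (DZ (Z true)) ℂ, ∀ x ∈ N a, X *ᵥ x ∈ N a),
      (∀ y, y = ∑ a, (π a y : Fin (g true) ⊕ Fin (g true) → ℂ)) ∧
      (∀ a, Nontrivial (N a)) ∧ (∀ a x, w a x x = 0) ∧ (∀ a x, (∀ y, w a x y = 0) → x = 0) ∧
      (∀ a X, IsSp (w a) (rsN (N a) (hst a) X)) ∧
      (∀ a, ∀ X ∈ lieM (DZ (Z true)) ℂ, ∀ y, (π a (X *ᵥ y) : Fin (g true) ⊕ Fin (g true) → ℂ) =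
        X *ᵥ (π a y : Fin (g true) ⊕ Fin (g true) → ℂ)) ∧
      (∀ a x y, ∃ X : lieM (DZ (bigD ℂ Z)) ℂ,
        (blocksOf Z T.hZ T.hpos).bl ℂ false X.1 = 0 ∧
        rsN (N a) (hst a) ((blocksOf Z T.hZ T.hpos).blL true X) = EE (w a) x y)) ∧
    ∀ W ∈ LZ (Z false), ∃ X ∈ lieM (DZ (bigD ℂ Z)) ℂ,
      (blocksOf Z T.hZ T.hpos).bl ℂ false X = W ∧ (blocksOf Z T.hZ T.hpos).bl ℂ true X = 0

/-- JOB ULAB. Letters with an involution without fixed points can be numbered as the letters of
labels. (As `Pool.Agent.Q247.WT.lab`; a selfdual class now has an arbitrary even number of letters;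
`dual` of `Labels` in a selfdual class with `orth = false` is the reversal.) -/
def S_lab : Prop :=
  ∀ (P R : Type) [Fintype P] [DecidableEq P] [Fintype R] [DecidableEq R] (cls : R → P)
    (inv : R → R) (b : P → P), (∀ p, b (b p) = p) → (∀ x, inv (inv x) = x) → (∀ x, inv x ≠ x) →
    (∀ x, cls (inv x) = b (cls x)) →
    ∃ (Λ : Labels 3 P) (η : R ≃ Letter Λ), (∀ p, Λ.orth p = false) ∧ (∀ p, Λ.star p = b p) ∧
      (∀ x, (η x).1 = cls x) ∧ ∀ x, Pool.Agent.Q59.GC.dual (η x) = η (inv x)

/-- JOB UEXP (helper180). The expansion of a Hodge tensor for two blocks. -/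
def S_exp : Prop :=
  ∀ (g : Bool → ℕ) (Z : ∀ b, Matrix (Fin (g b)) (Fin (g b)) ℂ) (T : Two g Z)
    (M : Pol (Z false)) (κ : Type) [Fintype κ] [DecidableEq κ]
    (c : (κ → Fin (NB g) ⊕ Fin (NB g)) → ℚ), IsH (DZ (bigD ℂ Z)) c →
    cst ℂ c ∈ Submodule.span ℂ {F : (κ → Fin (NB g) ⊕ Fin (NB g)) → ℂ |
      ∃ (l p : ℕ) (φ : Fin l → Pr (Z false)) (n : Fin l → ℕ)
        (Q : ∀ j, Matrix (Fin (n j)) (Fin (g false) ⊕ Fin (g false)) ℂ)
        (V : ∀ j, Matrix (Fin (g false) ⊕ Fin (g false)) (Fin (n j)) ℂ)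
        (e : (Σ j : Fin l, Fin (n j)) ⊕ (Fin p × Fin 2) ≃ κ)
        (C : ∀ j, Fin (n j) →
          Matrix (Fin (g false) ⊕ Fin (g false)) (Fin (g false) ⊕ Fin (g false)) ℂ)
        (G : Fin p → Matrix (Fin (NB g) ⊕ Fin (NB g)) (Fin (NB g) ⊕ Fin (NB g)) ℂ),
        (∀ j, Q j * V j = 1) ∧ (∀ j, V j * Q j = (φ j).e) ∧ (∀ j a, Ct (Z false) (C j a)) ∧
        (∀ s (σ : ℂ ≃+* ℂ), ((DZ (bigD ℂ Z)).map σ)ᵀ * G s + G s * (DZ (bigD ℂ Z)).map σ = 0) ∧
        (∀ σ : ℂ ≃+* ℂ, ∑ j, trace ((DZ (Z false)).map (σ : ℂ →+* ℂ) * (φ j).e) = 0) ∧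
        F = fun w => (∏ j, (Matrix.of fun a b : Fin (n j) =>
            (Q j * C j a * PB Z T.hZ T.hpos false) b (w (e (Sum.inl ⟨j, a⟩)))).det) *
          ∏ s, G s (w (e (Sum.inr (s, 0)))) (w (e (Sum.inr (s, 1))))}

/-! ## Simple abelian varieties of prime dimension -/

/-- JOB UODD. An abelian variety of odd dimension whose endomorphisms are the integers has the full
symplectic Lie algebra.

Proof, with the library `Pool.Agent.Y91.JP`. Let `D = DZ Z`, `G = LA {D}` (as operators `GG (LA {D})`),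
`V = ℂ^(2g)`. Since the endomorphisms are scalars, the commutant of `G` consists of scalars (the
complex span of the rational commutant; as for `gn_top_of_sq`, `exists_rank_one_of_sq`).
(a) `G` is generated by `D` as an ideal: `GG (LA D) ≤ gn (GG (LA D)) (ph B D)`. Otherwise let
`I = gn G D`; not all conjugates of `D` are in `I` (the images of `D` under rational linear functions
are combinations of conjugates), and by `invol_dich` each conjugate `D'` of `D` is in `I` or in
`cen G I`; if `D' ∈ cen G I` then `D' D = D D'` and `trace (D D') = 0` (`trace_prod`, or: `D` is a sum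
of commutators in `I` and `D'` commutes with `I`), and `trace D = trace D' = 0`: the four common
eigenspaces of `D`, `D'` have the same dimension, so `4` divides `2 g`, a contradiction as `g` is odd.
(b) There is `X ∈ G`, `X ^ 2 = 0`, `X ≠ 0`, of rank `r < g`, or `g = 1`: let `K = Kp G D` (the `X ∈ G`
with `D X = X = - X D`, of square zero and rank at most `g`); `K ≠ 0` because otherwise `D` commutes
with `G`. If `dim K ≥ 2` take independent `X`, `Y ∈ K`; if both have rank `g` (isomorphisms from the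
eigenspace of `-1` to the eigenspace of `1`) then some `X - t Y`, `t ∈ ℂ`, has smaller rank. If
`dim K = 1` then also `Kp G (-D)` has dimension one (`Y ↦` the Hermitian adjoint, or complex
conjugation), and `Kp G D ⊔ Kp G (-D) ⊔ Kz G D` is an ideal (`kz_idl`) of dimension three, which
contains `D` or kills...: by (a) it is `G` (it is not zero and `D` is in it by `idl_decomp` since `D`
does not commute with `Kp G D`), so `G` has dimension three and `D ∈ [Kp G D, Kp G (-D)]`, `V` is
irreducible: for `x` in the eigenspace of `1` the space spanned by `x` and `Kp G (-D) x` is stable, so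
`2 g = 2`.
(c) If `g = 1` then `X ∈ Kp G D` has rank one. If `r < g`, apply `exists_rank_one_of_sq`: `4 r ≠ 2 g` as
`g` is odd, `2 r ≠ 2 g`, and `2 g = (2 j + 1).centralBinom` is impossible for `j ≥ 1` as
`4 ∣ (2 j + 1).centralBinom` (`centralBinom n = 2 * choose (2n-1) (n-1)` and
`choose (2n-1) (n-1)` is even unless `n` is a power of two).
(d) A rank one element gives `HasPcs` (`sq_of_rank_one`, `UU_eq_top`, `hasPcs_of_top`; see how
`Pool.Agent.Q6.D3.Tri` or `pcs_of_ranks` in `Pool.Agent.Y91.JP.Fam5` conclude). -/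
def S_odd : Prop :=
  ∀ (g : ℕ) (Z : Matrix (Fin g) (Fin g) ℂ), Zᵀ = Z → (imM Z).PosDef → Odd g →
    (∀ ψ : Matrix (Fin g ⊕ Fin g) (Fin g ⊕ Fin g) ℚ, cK ℂ ψ * DZ Z = DZ Z * cK ℂ ψ →
      ∃ a : ℚ, ψ = a • (1 : Matrix (Fin g ⊕ Fin g) (Fin g ⊕ Fin g) ℚ)) → HasPcs (DZ Z)

/-- JOB UPLA. The places of a simple abelian variety: they are conjugate; `e` is their number, `d` the
degree of the endomorphism algebra over its centre, `n` the dimension of a place. Representatives `ρ`
of the classes of places.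

Proof. `ρ`, `P`: `M.exists_reps`. Conjugate: for a place `φ` the sum `c` over the classes of the
conjugates of `φ` of the central idempotents (the central idempotent of a class: it acts as the
identity on all images of idempotents of the class and as zero on the other classes) is fixed by
all automorphisms of `ℂ`, so rational; it commutes with the Hodge operator, so it is a rational
idempotent endomorphism, `0` or `1` as the variety is simple; so all places are conjugate and have the
same `mu φ + mu (bar φ) = n` (`mu_act`, `bar_act`). A family of primitive idempotents with sum one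
(`M.exists_family`) contains each class the same number `d` of times (the central idempotents are
conjugate, and the number for the class is their trace divided by `n`), so `2 g = e d n` (traces).
The rational commutant `E` of the Hodge operator is a division algebra (the kernel of a rational
endomorphism is stable, so zero or everything), `ℚ^(2g)` is a vector space over it, so
`dim_ℚ E` divides `2 g`; and `dim_ℚ E = dim_ℂ` of the commutant `= e d^2` (between two idempotents of
the family the commutant has dimension one if they are equivalent and zero otherwise). If `d = 1` the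
family is a system of representatives. -/
def S_pla : Prop :=
  ∀ (g : ℕ) (Z : Matrix (Fin g) (Fin g) ℂ) (M : Pol Z), IsSimpleAV Z → 0 < g →
    (∀ φ ψ : Pr Z, ∃ σ : ℂ ≃+* ℂ, Eqv (M.act σ φ) ψ) ∧
    ∃ (e d n : ℕ), 2 * g = e * d * n ∧ e * d ^ 2 ∣ 2 * g ∧
      (∀ φ : Pr Z, mu φ + mu (M.bar φ) = n) ∧
      ∃ (P : Type) (_ : Fintype P) (_ : DecidableEq P) (ρ : P → Pr Z), Fintype.card P = e ∧
        (∀ φ : Pr Z, ∃ p, Eqv (ρ p) φ) ∧ (∀ p q, Eqv (ρ p) (ρ q) → p = q) ∧
        (d = 1 → (∑ p, (ρ p).e = 1) ∧ ∀ c, Ct Z c → ∃ lam : P → ℂ, c = ∑ p, lam p • (ρ p).e)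

/-- JOB UPRIME (hypotheses `S_pla`, `S_odd`, `S_memtr`; `S_lin`, `S_mul` if useful). A simple abelian
variety of dimension one or of odd prime dimension is of CM type, or of symplectic type, or of unitary
type with an imaginary quadratic field.

Proof. For `g ≤ 3` see also `Pool.Agent.Q6.D3.Tri`. Let `g = 1`: `S_tri`. Let `g = p` be an odd prime.
`e d^2 ∣ 2 p` gives `d = 1`, and `2 p = e n`. `e = 2p`: `n = 1`, the idempotents `ρ p` have rank one and
all conjugates of `DZ Z` commute with them, so they are simultaneously diagonal: `Comm Z`.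
`e = p`, `n = 2`: the involution `bar` on the `p` classes has a fixed class, by conjugacy all classes
are selfconjugate, `mu φ = mu (bar φ) = 1`, so `M.Cop`, `M.Sep` hold (`mu` is constant), and `S_memtr`
gives an element of `LZ Z` of rank one: `Fr.exists_root` of `Pool.Agent.Q180.WT.Expw` for `y = x`
(`d = 1`: the elements `X` there live on one place); then `HasPcs` as in UODD (d) (the variety is
simple). `e = 2`, `n = p` odd: no place is selfconjugate (`mu φ = mu (bar φ)` would make `n` even), the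
endomorphism algebra is a quadratic field `ℚ (φ)`; `φ` acts as `μ`, `μ'` on the two places, conjugate
and, as `bar` exchanges the places (the Rosati involution is not trivial on the field and positive),
`φ` can be chosen with `φ^2 = - m`, `m > 0` rational. `P = x^2 + m`, `r = - x`. If `mu` of a place is
zero then `DZ Z` is a scalar on each of the two places, so it is in the commutant and `Comm Z` holds.
Otherwise `mu φ` and `mu (bar φ)` are positive with sum `p`, so coprime; `M` is the maximum.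
`e = 1`, `n = 2 p`: the endomorphisms are rational numbers, `S_odd`. -/
def S_prime : Prop :=
  ∀ (g : ℕ) (Z : Matrix (Fin g) (Fin g) ℂ) (hZ : Zᵀ = Z) (hpos : (imM Z).PosDef),
    (g ≤ 2 ∨ g.Prime) → IsSimpleAV Z →
    Comm Z ∨ HasPcs (DZ Z) ∨ ∃ M : ℕ, IsUnitary (ofZ Z hZ hpos) 2 M

/-- JOB UTR. Transport of the unitary type along an isomorphism. -/
def S_utr : Prop :=
  ∀ (A B : AV) (a : A.H ≃ₗ[ℚ] B.H) (c : A.T ≃ₗ[ℂ] B.T), (∀ w, c (A.per w) = B.per (a w)) →
    ∀ e M : ℕ, IsUnitary A e M → IsUnitary B e M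

end Pool.Agent.Q180.UW
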