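import Mathlib
import Pool.Agent.Q180.WT.Lin
import Pool.Agent.Q180.UW.StmL

/-!
# Monomials as multilinear forms
-/

set_option linter.unusedSectionVars false
set_option linter.unusedVariables false

namespace Pool.Agent.Q180.UW

open Matrix Module
open Pool.Agent.Q180.WT (exists_prod exists_mul)

/-- The value of a monomial is multilinear. -/
theorem Mon.exists_form {𝒲 : Set (ℕ × ℕ)} {𝒞 : Pool.Agent.Q60.D3.AV → Prop}
    {X : Pool.Agent.Q60.D3.AV} {κ : Type} (M : Mon 𝒲 𝒞 X κ) :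
    ∃ F : MultilinearMap ℚ (fun _ : κ => X.H) ℂ, ∀ v, F v = M.val v := by
  obtain ⟨G1, h1⟩ := exists_prod (R := ℚ) (A := ℂ) (V := X.H) (J := Fin M.m)
    (T := fun j => Fin (M.n j)) fun j =>
      ((M.D j).δ.toMultilinearMap).compLinearMap fun k => M.h j k
  obtain ⟨G2, h2⟩ := exists_prod (R := ℚ) (A := ℂ) (V := X.H) (J := Fin M.p)
    (T := fun _ => Fin 2) fun q => Pool.Agent.Q60.D3.cxM (M.β q)
  obtain ⟨E, hE⟩ := exists_mul G1 (G2.domDomCongr (Equiv.sigmaEquivProd (Fin M.p) (Fin 2)))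
  refine ⟨E.domDomCongr M.e, fun v => ?_⟩
  rw [MultilinearMap.domDomCongr_apply, hE, h1, MultilinearMap.domDomCongr_apply, h2]
  rfl

end Pool.Agent.Q180.UW
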