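import Mathlib
import Pool.Agent.Q180.UW.Lin
import Pool.Agent.Q180.WT.Core

/-!
# The Hodge classes on products with factors of unitary, CM and symplectic type
-/

set_option linter.unusedSectionVars false
set_option linter.unusedVariables false

namespace Pool.Agent.Q180.UW

open Matrix Module Pool.Agent.H204R3.CM Pool.Agent.H204R3.SP Pool.Agent.W437.HC
  Pool.Agent.W437.HD Pool.Agent.W437.HP Pool.Agent.W437.HR
open Pool.Agent.Q60.D3 (AV IsHom IsCM cx mulF HasWeight conjF chi cxM ofZ Comm hom_of_comm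
  span_homs span_bil multi_span S_wgt S_ish)
open Pool.Agent.Y4.K (Pol Pr mu Eqv Iso)
open Pool.Agent.Y4.H (LZ Ct D_mem_LZ Dσ_mem_LZ)
open Pool.Agent.Q180.WT (PB PB_D PB_same hasWeight_comp isHodge_comp exists_bil theta theta_add
  theta_smul theta_zero eq_theta exists_det)

section mono

variable (𝒲 : Set (ℕ × ℕ)) (𝒞 : AV → Prop) {N : ℕ} (W : Matrix (Fin N) (Fin N) ℂ) (hW : Wᵀ = W)
  (hWp : (imM W).PosDef) (Y : AV) (a : Y.H ≃ₗ[ℚ] (Fin N ⊕ Fin N → ℚ)) (c : Y.T ≃ₗ[ℂ] (Fin N → ℂ))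
  {ι : Type} (g2 : ι → ℕ) (Z2 : ∀ i, Matrix (Fin (g2 i)) (Fin (g2 i)) ℂ)
  (hZ2 : ∀ i, (Z2 i)ᵀ = Z2 i) (hpos2 : ∀ i, (imM (Z2 i)).PosDef)
  (Fa : ∀ i, Fam 𝒲 𝒞 (Z2 i) (hZ2 i) (hpos2 i))

include hW hWp in
/-- The rational products. -/
theorem good_mono (h𝒞 : ∀ (e M : ℕ) (B : AV), (e, M) ∈ 𝒲 → IsCM B → 2 * finrank ℂ B.T = e → 𝒞 B)
    (hwgt : S_wgt) (hbal : S_bal)
    (hc : ∀ w, c (Y.per w) = perOne W (a w))
    (Pq : ∀ i, Matrix (Fin (g2 i) ⊕ Fin (g2 i)) (Fin N ⊕ Fin N) ℚ)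
    (hPq : ∀ i, cK ℂ (Pq i) * DZ W = DZ (Z2 i) * cK ℂ (Pq i)) {κ : Type} [Fintype κ]
    [DecidableEq κ]
    {l p : ℕ} (ii : Fin l → ι) (r : ∀ j, (Fa (ii j)).R)
    (hbl : ∀ σ : ℂ ≃+* ℂ, ∑ j, ((Fa (ii j)).L (r j)).s σ = 0)
    (e : (Σ j : Fin l, Fin ((Fa (ii j)).n (r j))) ⊕ (Fin p × Fin 2) ≃ κ)
    (N1 : (Σ j : Fin l, Fin ((Fa (ii j)).n (r j))) → Matrix (Fin N ⊕ Fin N) (Fin N ⊕ Fin N) ℚ)
    (N2 : Fin p → Matrix (Fin N ⊕ Fin N) (Fin N ⊕ Fin N) ℚ)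
    (h1 : ∀ t, cK ℂ (N1 t) * DZ W = DZ W * cK ℂ (N1 t))
    (h2 : ∀ s, (DZ W)ᵀ * cK ℂ (N2 s) + cK ℂ (N2 s) * DZ W = 0)
    (G : (κ → Fin N ⊕ Fin N) → ℂ)
    (hG : G = fun w => (∏ j, (Matrix.of fun x y : Fin ((Fa (ii j)).n (r j)) =>
          ((Fa (ii j)).Q (r j) * cK ℂ (Pq (ii j)) * cK ℂ (N1 ⟨j, x⟩)) y
            (w (e (Sum.inl ⟨j, x⟩)))).det) *
        ∏ s, cK ℂ (N2 s) (w (e (Sum.inr (s, 0)))) (w (e (Sum.inr (s, 1))))) :
    Good 𝒲 𝒞 Y κ (theta a.toLinearMap G) := by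
  choose bf hbf using fun s => exists_bil a.toLinearMap (N2 s)
  obtain ⟨Mo, hMo⟩ : ∃ Mo : Mon 𝒲 𝒞 Y κ, Mo =
      { m := l
        n := fun j => (Fa (ii j)).n (r j)
        A := fun j => ofZ (Z2 (ii j)) (hZ2 _) (hpos2 _)
        D := fun j => (Fa (ii j)).L (r j)
        h := fun j k => (Matrix.mulVecLin (Pq (ii j) * N1 ⟨j, k⟩)) ∘ₗ a.toLinearMap
        hh := by
          intro j k
          have e1 : cK ℂ (Pq (ii j) * N1 ⟨j, k⟩) * DZ W =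
              DZ (Z2 (ii j)) * cK ℂ (Pq (ii j) * N1 ⟨j, k⟩) := by
            rw [cK_mul, Matrix.mul_assoc, h1, ← Matrix.mul_assoc, hPq, Matrix.mul_assoc]
          obtain ⟨C, hC⟩ := hom_of_comm hW hWp (hZ2 (ii j)) (hpos2 (ii j)) e1
          refine ⟨C ∘ₗ c.toLinearMap, fun w => ?_⟩
          change C (c (Y.per w)) = _
          rw [hc]
          exact hC (a w)
        p := p
        β := bf
        hβ := by
          intro s
          obtain ⟨b0, hb0⟩ := exists_bil (LinearMap.id (R := ℚ)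
            (M := Fin N ⊕ Fin N → ℚ)) (N2 s)
          have e1 : cxM (bf s) = (cxM b0).compLinearMap fun _ => a.toLinearMap := by
            ext v
            change ((bf s v : ℚ) : ℂ) = ((b0 fun k => a.toLinearMap (v k) : ℚ) : ℂ)
            rw [hbf, hb0]
            rfl
          rw [e1]
          refine hasWeight_comp a.toLinearMap c.toLinearMap hc ?_
          refine hwgt _ _ hWp (Fin 2) (cxM b0) 0 ?_
          have e2 : (fun I : Fin 2 → Fin N ⊕ Fin N =>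
              (cxM b0) fun k => Pi.single (I k) 1) = bilc (cK ℂ (N2 s)) := by
            funext I
            change ((b0 (fun k => Pi.single (I k) 1) : ℚ) : ℂ) = ((N2 s (I 0) (I 1) : ℚ) : ℂ)
            rw [hb0]
            congr 1
            change (Pi.single (I 0) 1 : Fin N ⊕ Fin N → ℚ) ⬝ᵥ
              (N2 s *ᵥ Pi.single (I 1) 1) = _
            rw [single_one_dotProduct, mulVec_single_one]
            rfl
          rw [e2]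
          funext I
          rw [act_bilc, h2]
          simp
        e := e } := ⟨_, rfl⟩
  obtain ⟨F, hF⟩ := Mo.exists_form
  have hgood := hbal 𝒲 𝒞 h𝒞 Y κ Mo ?_ F hF
  · rw [eq_theta a F G ?_] at hgood
    · exact hgood
    · intro w
      rw [hF, hMo, hG]
      unfold Mon.val
      congr 1
      · refine Finset.prod_congr rfl fun j _ => ?_
        change ((Fa (ii j)).L (r j)).δ (fun k => (Pq (ii j) * N1 ⟨j, k⟩) *ᵥ
          (a (a.symm (Pi.single (w (e (Sum.inl ⟨j, k⟩))) 1)))) = _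
        rw [(Fa (ii j)).hL]
        congr 1
        ext x y
        rw [Matrix.of_apply, Matrix.of_apply, LinearEquiv.apply_symm_apply,
          Pool.Agent.Q60.D3.cast_mulVec,
          mulVec_mulVec, cK_mul, ← Matrix.mul_assoc]
        have e1 : (fun k => (((Pi.single (w (e (Sum.inl ⟨j, x⟩))) (1 : ℚ) :
            Fin N ⊕ Fin N → ℚ) k : ℚ) : ℂ)) =
            Pi.single (w (e (Sum.inl ⟨j, x⟩))) 1 := by
          funext k
          by_cases hk : k = w (e (Sum.inl ⟨j, x⟩))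
          · rw [hk, Pi.single_eq_same, Pi.single_eq_same, Rat.cast_one]
          · rw [Pi.single_eq_of_ne hk, Pi.single_eq_of_ne hk, Rat.cast_zero]
        rw [e1, mulVec_single_one]
        rfl
      · refine Finset.prod_congr rfl fun s _ => ?_
        change ((bf s (fun k => a.symm (Pi.single (w (e (Sum.inr (s, k)))) 1)) : ℚ) : ℂ) =
          ((N2 s (w (e (Sum.inr (s, 0)))) (w (e (Sum.inr (s, 1)))) : ℚ) : ℂ)
        rw [hbf]
        congr 1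
        change (a (a.symm (Pi.single (w (e (Sum.inr (s, 0)))) 1))) ⬝ᵥ
          (N2 s *ᵥ a (a.symm (Pi.single (w (e (Sum.inr (s, 1)))) 1))) = _
        rw [LinearEquiv.apply_symm_apply, LinearEquiv.apply_symm_apply, single_one_dotProduct,
          mulVec_single_one]
        rfl
  · rw [hMo]
    exact hbl

end mono

/-- The dimensions of the two blocks. -/
def gB (g1 g0 : ℕ) : Bool → ℕ
  | true => g1
  | false => g0

/-- The two blocks. -/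
def ZB {g1 g0 : ℕ} (Z1 : Matrix (Fin g1) (Fin g1) ℂ) (Z0 : Matrix (Fin g0) (Fin g0) ℂ) :
    ∀ b, Matrix (Fin (gB g1 g0 b)) (Fin (gB g1 g0 b)) ℂ
  | true => Z1
  | false => Z0

/-- The expansion, with the second block written out. -/
theorem exp_two (hexp : S_exp) {g1 g0 : ℕ} (Z1 : Matrix (Fin g1) (Fin g1) ℂ)
    (Z0 : Matrix (Fin g0) (Fin g0) ℂ) (T : Two (gB g1 g0) (ZB Z1 Z0)) (M : Pol Z0)
    (Pf : Matrix (Fin g0 ⊕ Fin g0) (Fin (NB (gB g1 g0)) ⊕ Fin (NB (gB g1 g0))) ℂ)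
    (hPf : Pf = PB (ZB Z1 Z0) T.hZ T.hpos false)
    (κ : Type) [Fintype κ] [DecidableEq κ]
    (c : (κ → Fin (NB (gB g1 g0)) ⊕ Fin (NB (gB g1 g0))) → ℚ) (hc : IsH (DZ (bigD ℂ (ZB Z1 Z0))) c) :
    cst ℂ c ∈ Submodule.span ℂ {F : (κ → Fin (NB (gB g1 g0)) ⊕ Fin (NB (gB g1 g0))) → ℂ |
      ∃ (l p : ℕ) (φ : Fin l → Pr Z0) (n : Fin l → ℕ)
        (Q : ∀ j, Matrix (Fin (n j)) (Fin g0 ⊕ Fin g0) ℂ)
        (V : ∀ j, Matrix (Fin g0 ⊕ Fin g0) (Fin (n j)) ℂ)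
        (e : (Σ j : Fin l, Fin (n j)) ⊕ (Fin p × Fin 2) ≃ κ)
        (C : ∀ j, Fin (n j) → Matrix (Fin g0 ⊕ Fin g0) (Fin g0 ⊕ Fin g0) ℂ)
        (G : Fin p → Matrix (Fin (NB (gB g1 g0)) ⊕ Fin (NB (gB g1 g0)))
          (Fin (NB (gB g1 g0)) ⊕ Fin (NB (gB g1 g0))) ℂ),
        (∀ j, Q j * V j = 1) ∧ (∀ j, V j * Q j = (φ j).e) ∧ (∀ j a, Ct Z0 (C j a)) ∧
        (∀ s (σ : ℂ ≃+* ℂ), ((DZ (bigD ℂ (ZB Z1 Z0))).map σ)ᵀ * G s +
          G s * (DZ (bigD ℂ (ZB Z1 Z0))).map σ = 0) ∧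
        (∀ σ : ℂ ≃+* ℂ, ∑ j, trace ((DZ Z0).map (σ : ℂ →+* ℂ) * (φ j).e) = 0) ∧
        F = fun w => (∏ j, (Matrix.of fun a b : Fin (n j) =>
            (Q j * C j a * Pf) b (w (e (Sum.inl ⟨j, a⟩)))).det) *
          ∏ s, G s (w (e (Sum.inr (s, 0)))) (w (e (Sum.inr (s, 1))))} := by
  subst hPf
  exact hexp (gB g1 g0) (ZB Z1 Z0) T M κ c hc

theorem PfD {g1 g0 : ℕ} (Z1 : Matrix (Fin g1) (Fin g1) ℂ)
    (Z0 : Matrix (Fin g0) (Fin g0) ℂ) (T : Two (gB g1 g0) (ZB Z1 Z0))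
    (Pf : Matrix (Fin g0 ⊕ Fin g0) (Fin (NB (gB g1 g0)) ⊕ Fin (NB (gB g1 g0))) ℂ)
    (hPf : Pf = PB (ZB Z1 Z0) T.hZ T.hpos false) :
    Pf * Pfᵀ = 1 ∧ (∀ σ : ℂ ≃+* ℂ, Pf * (DZ (bigD ℂ (ZB Z1 Z0))).map (σ : ℂ →+* ℂ) =
      (DZ Z0).map (σ : ℂ →+* ℂ) * Pf) ∧
    ∀ σ : ℂ ≃+* ℂ, (DZ (bigD ℂ (ZB Z1 Z0))).map (σ : ℂ →+* ℂ) * Pfᵀ =
      Pfᵀ * (DZ Z0).map (σ : ℂ →+* ℂ) := by
  have h1 : PB (ZB Z1 Z0) T.hZ T.hpos false * (PB (ZB Z1 Z0) T.hZ T.hpos false)ᵀ = 1 :=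
    PB_same _ T.hZ T.hpos false
  have h2 : ∀ σ : ℂ ≃+* ℂ, PB (ZB Z1 Z0) T.hZ T.hpos false *
      (DZ (bigD ℂ (ZB Z1 Z0))).map (σ : ℂ →+* ℂ) =
      (DZ (ZB Z1 Z0 false)).map (σ : ℂ →+* ℂ) * PB (ZB Z1 Z0) T.hZ T.hpos false :=
    fun σ => PB_D _ T.hZ T.hpos false σ
  have h3 : ∀ σ : ℂ ≃+* ℂ, (DZ (bigD ℂ (ZB Z1 Z0))).map (σ : ℂ →+* ℂ) *
      (PB (ZB Z1 Z0) T.hZ T.hpos false)ᵀ =
      (PB (ZB Z1 Z0) T.hZ T.hpos false)ᵀ * (DZ (ZB Z1 Z0 false)).map (σ : ℂ →+* ℂ) := by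
    intro σ
    have hX : (DZ (bigD ℂ (ZB Z1 Z0))).map (σ : ℂ →+* ℂ) ∈ lieM (DZ (bigD ℂ (ZB Z1 Z0))) ℂ :=
      map_mem_aut (D_mem _) (σ : ℂ →+* ℂ)
    have h4 := (blocksOf (ZB Z1 Z0) T.hZ T.hpos).mul_inc hX false
    have h5 : (blocksOf (ZB Z1 Z0) T.hZ T.hpos).bl ℂ false
        ((DZ (bigD ℂ (ZB Z1 Z0))).map (σ : ℂ →+* ℂ)) =
        (DZ (ZB Z1 Z0 false)).map (σ : ℂ →+* ℂ) := by
      rw [Blocks.bl_apply]
      have h6 := h2 σ
      unfold PB at h6 h1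
      rw [h6, Matrix.mul_assoc, h1, Matrix.mul_one]
    rw [h5] at h4
    exact h4
  subst hPf
  exact ⟨h1, h2, h3⟩

section core

variable (𝒲 : Set (ℕ × ℕ)) (𝒞 : AV → Prop) {g1 : ℕ} (Z1 : Matrix (Fin g1) (Fin g1) ℂ)
  (hZ1 : Z1ᵀ = Z1) (hpos1 : (imM Z1).PosDef)
  {ι : Type} [Fintype ι] [DecidableEq ι] (g2 : ι → ℕ)
  (Z2 : ∀ i, Matrix (Fin (g2 i)) (Fin (g2 i)) ℂ)
  (hZ2 : ∀ i, (Z2 i)ᵀ = Z2 i) (hpos2 : ∀ i, (imM (Z2 i)).PosDef)
  (Fa : ∀ i, Fam 𝒲 𝒞 (Z2 i) (hZ2 i) (hpos2 i))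
  (Y : AV) (a : Y.H ≃ₗ[ℚ] (Fin (NB (gB g1 (NB g2))) ⊕ Fin (NB (gB g1 (NB g2))) → ℚ))
  (c : Y.T ≃ₗ[ℂ] (Fin (NB (gB g1 (NB g2))) → ℂ))

include hZ1 hpos1 hZ2 hpos2 Fa in
/-- **The Hodge classes are generated.** -/
theorem core (h𝒞 : ∀ (e M : ℕ) (B : AV), (e, M) ∈ 𝒲 → IsCM B → 2 * finrank ℂ B.T = e → 𝒞 B)
    (hdesc : S_desc) (halt : S_good_alt) (hlin : S_good_lin) (hexp : S_exp)
    (haln : S_aln) (hwgt : S_wgt) (hish : S_ish) (hbal : S_bal) (hpcs : HasPcs (DZ Z1))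
    (hc : ∀ w, c (Y.per w) = perOne (bigD ℂ (ZB Z1 (bigD ℂ Z2))) (a w)) (κ : Type) [Fintype κ]
    (f : Y.H [⋀^κ]→ₗ[ℚ] ℚ) (hf : IsHodge Y.per f) : Gen 𝒲 𝒞 Y κ f := by
  classical
  have hb2pos : (imM (bigD ℂ Z2)).PosDef := imM_bigD_posDef Z2 hpos2
  have hb2symm : (bigD ℂ Z2)ᵀ = bigD ℂ Z2 := bigD_symm hZ2
  have hZ : ∀ b, (ZB Z1 (bigD ℂ Z2) b)ᵀ = ZB Z1 (bigD ℂ Z2) b := by
    rintro (_ | _)
    · exact hb2symm
    · exact hZ1
  have hpos : ∀ b, (imM (ZB Z1 (bigD ℂ Z2) b)).PosDef := by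
    rintro (_ | _)
    · exact hb2pos
    · exact hpos1
  have M0 : Pol (bigD ℂ Z2) := ⟨hb2symm, hb2pos⟩
  obtain ⟨hcop, hsep, hnsc, hal⟩ := haln 𝒲 𝒞 ι g2 Z2 hZ2 hpos2 Fa M0
  have T : Two (gB g1 (NB g2)) (ZB Z1 (bigD ℂ Z2)) := ⟨hZ, hpos, hpcs, fun M => hcop,
    fun M => hsep, fun M => hnsc⟩
  obtain ⟨W, hWd⟩ : ∃ W, W = bigD ℂ (ZB Z1 (bigD ℂ Z2)) := ⟨_, rfl⟩
  have hbpos : (imM W).PosDef := by
    rw [hWd]
    exact imM_bigD_posDef _ hpos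
  have hbsymm : Wᵀ = W := by
    rw [hWd]
    exact bigD_symm hZ
  apply hdesc
  rw [← halt]
  have hH : IsH (DZ W) fun I : κ → Fin (NB (gB g1 (NB g2))) ⊕ Fin (NB (gB g1 (NB g2))) =>
      (f.compLinearMap a.symm.toLinearMap) fun k => Pi.single (I k) 1 := by
    refine hish _ _ hbpos κ _ (isHodge_comp a.symm.toLinearMap c.symm.toLinearMap ?_ hf)
    intro w
    change c.symm (perOne W w) = Y.per (a.symm w)
    rw [LinearEquiv.symm_apply_eq, hc, LinearEquiv.apply_symm_apply, hWd]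
  rw [eq_theta a (cx f).toMultilinearMap (cst ℂ
    fun I : κ → Fin (NB (gB g1 (NB g2))) ⊕ Fin (NB (gB g1 (NB g2))) =>
    (f.compLinearMap a.symm.toLinearMap) fun k => Pi.single (I k) 1) (fun w => rfl)]
  obtain ⟨hadd, hsmul, hzero⟩ := hlin 𝒲 𝒞 Y κ
  have hspan : ∀ (S : Set ((κ → Fin (NB (gB g1 (NB g2))) ⊕ Fin (NB (gB g1 (NB g2)))) → ℂ)),
      (∀ G ∈ S, Good 𝒲 𝒞 Y κ (theta a.toLinearMap G)) →
      ∀ G ∈ Submodule.span ℂ S, Good 𝒲 𝒞 Y κ (theta a.toLinearMap G) := by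
    intro S hS G hG
    induction hG using Submodule.span_induction with
    | mem G hG => exact hS G hG
    | zero => rw [theta_zero]; exact hzero
    | add x y _ _ hx hy => rw [theta_add]; exact hadd _ _ hx hy
    | smul r x _ hx => rw [theta_smul]; exact hsmul _ _ hx
  obtain ⟨Pf, hPf⟩ : ∃ Pf : Matrix (Fin (NB g2) ⊕ Fin (NB g2))
      (Fin (NB (gB g1 (NB g2))) ⊕ Fin (NB (gB g1 (NB g2)))) ℂ,
      Pf = PB (ZB Z1 (bigD ℂ Z2)) T.hZ T.hpos false := ⟨_, rfl⟩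
  obtain ⟨hPf1, hPfD, hPfD'⟩ := PfD Z1 (bigD ℂ Z2) T Pf hPf
  rw [← hWd] at hPfD hPfD'
  have hH' : IsH (DZ (bigD ℂ (ZB Z1 (bigD ℂ Z2)))) _ := hWd ▸ hH
  refine hspan _ ?_ _ (exp_two hexp Z1 (bigD ℂ Z2) T M0 Pf hPf κ _ hH')
  rintro G ⟨l, p, φ, n, Q, V, e, C, G2, hQV, hVQ, hC, hG2, htr, rfl⟩
  choose ii r A' C' hA hC' hCA hAC using fun j => hal (φ j)
  obtain ⟨P2, hP2⟩ : ∃ P2 : ∀ i, Matrix (Fin (g2 i) ⊕ Fin (g2 i)) (Fin (NB g2) ⊕ Fin (NB g2)) ℂ,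
      P2 = fun i => PB Z2 hZ2 hpos2 i := ⟨_, rfl⟩
  have hP21 : ∀ i, P2 i * (P2 i)ᵀ = 1 := by
    intro i
    rw [hP2]
    exact PB_same Z2 hZ2 hpos2 i
  have hP2D : ∀ i (σ : ℂ ≃+* ℂ), P2 i * (DZ (bigD ℂ Z2)).map (σ : ℂ →+* ℂ) =
      (DZ (Z2 i)).map (σ : ℂ →+* ℂ) * P2 i := by
    intro i σ
    rw [hP2]
    exact PB_D Z2 hZ2 hpos2 i σ
  have hAC' : ∀ j, A' j * C' j = (P2 (ii j))ᵀ * ((Fa (ii j)).V (r j) * (Fa (ii j)).Q (r j)) *
      P2 (ii j) := by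
    intro j
    rw [hP2]
    exact hAC j
  have hRR : ∀ j, (Q j * C' j * (P2 (ii j))ᵀ * (Fa (ii j)).V (r j)) *
      ((Fa (ii j)).Q (r j) * P2 (ii j) * A' j * V j) = 1 := by
    intro j
    calc _ = Q j * C' j * ((P2 (ii j))ᵀ * ((Fa (ii j)).V (r j) * (Fa (ii j)).Q (r j)) *
          P2 (ii j)) * A' j * V j := by simp only [Matrix.mul_assoc]
      _ = Q j * (C' j * A' j) * (C' j * A' j) * V j := by
          rw [← hAC']
          simp only [Matrix.mul_assoc]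
      _ = (Q j * V j) * (Q j * V j) * (Q j * V j) := by
          rw [hCA, ← hVQ]
          simp only [Matrix.mul_assoc]
      _ = 1 := by rw [hQV, Matrix.one_mul, Matrix.one_mul]
  have hcb : ∀ j, (Fa (ii j)).Q (r j) * (Fa (ii j)).V (r j) = 1 := fun j => (Fa (ii j)).QV (r j)
  have hRR' : ∀ j, ((Fa (ii j)).Q (r j) * P2 (ii j) * A' j * V j) *
      (Q j * C' j * (P2 (ii j))ᵀ * (Fa (ii j)).V (r j)) = 1 := by
    intro j
    calc _ = (Fa (ii j)).Q (r j) * P2 (ii j) * (A' j * (V j * Q j) * C' j) *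
          (P2 (ii j))ᵀ * (Fa (ii j)).V (r j) := by simp only [Matrix.mul_assoc]
      _ = (Fa (ii j)).Q (r j) * P2 (ii j) * ((A' j * C' j) * (A' j * C' j)) *
          (P2 (ii j))ᵀ * (Fa (ii j)).V (r j) := by
          rw [hVQ, ← hCA]
          simp only [Matrix.mul_assoc]
      _ = (Fa (ii j)).Q (r j) * (P2 (ii j) * (P2 (ii j))ᵀ) * (Fa (ii j)).V (r j) *
          ((Fa (ii j)).Q (r j) * (P2 (ii j) * (P2 (ii j))ᵀ) * (Fa (ii j)).V (r j)) *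
          ((Fa (ii j)).Q (r j) * (P2 (ii j) * (P2 (ii j))ᵀ) * (Fa (ii j)).V (r j)) := by
          rw [hAC']
          simp only [Matrix.mul_assoc]
      _ = 1 := by
          rw [hP21, Matrix.mul_one, hcb, Matrix.one_mul, Matrix.one_mul]
  have hn : ∀ j, n j = (Fa (ii j)).n (r j) := by
    intro j
    have e1 := congrArg trace (hRR j)
    have e2 := congrArg trace (hRR' j)
    rw [trace_mul_comm, e2, trace_one, trace_one, Fintype.card_fin, Fintype.card_fin] at e1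
    exact_mod_cast e1.symm
  obtain rfl : n = fun j => (Fa (ii j)).n (r j) := funext hn
  have hfac : ∀ (j) (x : Fin ((Fa (ii j)).n (r j))), Q j * C j x =
      (Q j * C' j * (P2 (ii j))ᵀ * (Fa (ii j)).V (r j)) *
        ((Fa (ii j)).Q (r j) * P2 (ii j) * (A' j * C j x)) := by
    intro j x
    symm
    calc _ = Q j * C' j * ((P2 (ii j))ᵀ * ((Fa (ii j)).V (r j) * (Fa (ii j)).Q (r j)) *
          P2 (ii j)) * A' j * C j x := by simp only [Matrix.mul_assoc]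
      _ = Q j * (C' j * A' j) * (C' j * A' j) * C j x := by
          rw [← hAC']
          simp only [Matrix.mul_assoc]
      _ = (Q j * V j) * (Q j * V j) * Q j * C j x := by
          rw [hCA, ← hVQ]
          simp only [Matrix.mul_assoc]
      _ = Q j * C j x := by rw [hQV, Matrix.one_mul, Matrix.one_mul]
  obtain ⟨Ψ, hΨ⟩ := exists_det (fun j => (Fa (ii j)).Q (r j) * (P2 (ii j) * Pf)) e
  obtain ⟨X, hX⟩ : ∃ X : (Σ j : Fin l, Fin ((Fa (ii j)).n (r j))) ⊕ Fin p →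
      Matrix (Fin (NB (gB g1 (NB g2))) ⊕ Fin (NB (gB g1 (NB g2))))
        (Fin (NB (gB g1 (NB g2))) ⊕ Fin (NB (gB g1 (NB g2)))) ℂ,
      X = Sum.elim (fun t => Pfᵀ * (A' t.1 * C t.1 t.2) * Pf) G2 := ⟨_, rfl⟩
  have hGX : (fun w : κ → Fin (NB (gB g1 (NB g2))) ⊕ Fin (NB (gB g1 (NB g2))) =>
      (∏ j, (Matrix.of fun x y : Fin ((Fa (ii j)).n (r j)) =>
      (Q j * C j x * Pf) y (w (e (Sum.inl ⟨j, x⟩)))).det) *
        ∏ s, G2 s (w (e (Sum.inr (s, 0)))) (w (e (Sum.inr (s, 1))))) =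
      (∏ j, (Q j * C' j * (P2 (ii j))ᵀ * (Fa (ii j)).V (r j)).det) • Ψ X := by
    rw [hΨ, hX]
    funext w
    rw [Pi.smul_apply, smul_eq_mul, ← mul_assoc, ← Finset.prod_mul_distrib]
    congr 1
    refine Finset.prod_congr rfl fun j _ => ?_
    rw [mul_comm, ← det_transpose (Q j * C' j * (P2 (ii j))ᵀ * (Fa (ii j)).V (r j)),
      ← det_mul]
    congr 1
    ext x y
    have h7 : Q j * C j x * Pf = (Q j * C' j * (P2 (ii j))ᵀ * (Fa (ii j)).V (r j)) *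
        ((Fa (ii j)).Q (r j) * (P2 (ii j) * Pf) * (Pfᵀ * (A' j * C j x) * Pf)) := by
      rw [hfac]
      calc _ = (Q j * C' j * (P2 (ii j))ᵀ * (Fa (ii j)).V (r j)) *
            ((Fa (ii j)).Q (r j) * P2 (ii j) * (1 : Matrix (Fin (NB g2) ⊕ Fin (NB g2))
              (Fin (NB g2) ⊕ Fin (NB g2)) ℂ) * (A' j * C j x) * Pf) := by
            rw [Matrix.mul_one]
            simp only [Matrix.mul_assoc]
        _ = _ := by
            rw [← hPf1]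
            simp only [Matrix.mul_assoc]
    rw [Matrix.mul_apply, Matrix.of_apply, h7, Matrix.mul_apply]
    refine Finset.sum_congr rfl fun z _ => ?_
    rw [Matrix.of_apply, transpose_apply, mul_comm]
    rfl
  change Good 𝒲 𝒞 Y κ (theta a.toLinearMap
    (fun w : κ → Fin (NB (gB g1 (NB g2))) ⊕ Fin (NB (gB g1 (NB g2))) =>
    (∏ j, (Matrix.of fun x y : Fin ((Fa (ii j)).n (r j)) =>
      (Q j * C j x * Pf) y (w (e (Sum.inl ⟨j, x⟩)))).det) *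
        ∏ s, G2 s (w (e (Sum.inr (s, 0)))) (w (e (Sum.inr (s, 1))))))
  rw [hGX, theta_smul]
  apply hsmul
  refine hspan _ ?_ _ (multi_span Ψ (fun t => Sum.elim
    (fun _ => {Y | ∃ N : Matrix (Fin (NB (gB g1 (NB g2))) ⊕ Fin (NB (gB g1 (NB g2))))
        (Fin (NB (gB g1 (NB g2))) ⊕ Fin (NB (gB g1 (NB g2)))) ℚ,
      cK ℂ N * DZ W = DZ W * cK ℂ N ∧ Y = cK ℂ N})
    (fun _ => {Y | ∃ N : Matrix (Fin (NB (gB g1 (NB g2))) ⊕ Fin (NB (gB g1 (NB g2))))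
        (Fin (NB (gB g1 (NB g2))) ⊕ Fin (NB (gB g1 (NB g2)))) ℚ,
      (DZ W)ᵀ * cK ℂ N + cK ℂ N * DZ W = 0 ∧ Y = cK ℂ N}) t) X ?_)
  · rintro G ⟨s, hs, rfl⟩
    have hs1 : ∀ t : Σ j : Fin l, Fin ((Fa (ii j)).n (r j)),
        ∃ N : Matrix (Fin (NB (gB g1 (NB g2))) ⊕ Fin (NB (gB g1 (NB g2))))
          (Fin (NB (gB g1 (NB g2))) ⊕ Fin (NB (gB g1 (NB g2)))) ℚ,
        cK ℂ N * DZ W = DZ W * cK ℂ N ∧ s (Sum.inl t) = cK ℂ N :=
      fun t => hs (Sum.inl t)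
    have hs2 : ∀ t : Fin p,
        ∃ N : Matrix (Fin (NB (gB g1 (NB g2))) ⊕ Fin (NB (gB g1 (NB g2))))
          (Fin (NB (gB g1 (NB g2))) ⊕ Fin (NB (gB g1 (NB g2)))) ℚ,
        (DZ W)ᵀ * cK ℂ N + cK ℂ N * DZ W = 0 ∧ s (Sum.inr t) = cK ℂ N :=
      fun t => hs (Sum.inr t)
    choose N1 hN1 hN1' using hs1
    choose N2 hN2 hN2' using hs2
    obtain ⟨Pq, hPq⟩ : ∃ Pq : Matrix (Fin (NB g2) ⊕ Fin (NB g2))
        (Fin (NB (gB g1 (NB g2))) ⊕ Fin (NB (gB g1 (NB g2)))) ℚ,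
        Pq = (blocksOf (ZB Z1 (bigD ℂ Z2)) T.hZ T.hpos).P false := ⟨_, rfl⟩
    have hPfq : Pf = cK ℂ Pq := by rw [hPf, hPq]; rfl
    have h8 : cK ℂ Pq * DZ W = DZ (bigD ℂ Z2) * cK ℂ Pq := by
      rw [hWd, hPq]
      exact (blocksOf (ZB Z1 (bigD ℂ Z2)) T.hZ T.hpos).com false
    refine good_mono 𝒲 𝒞 W hbsymm hbpos Y a c g2 Z2 hZ2 hpos2 Fa h𝒞 hwgt hbal
      (fun w => by rw [hc, hWd])
      (fun i => (blocksOf Z2 hZ2 hpos2).P i * Pq)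
      ?_ ii r ?_ e N1 N2 hN1 hN2 _ ?_
    · intro i
      rw [cK_mul]
      have h9 : cK ℂ ((blocksOf Z2 hZ2 hpos2).P i) * DZ (bigD ℂ Z2) =
          DZ (Z2 i) * cK ℂ ((blocksOf Z2 hZ2 hpos2).P i) := (blocksOf Z2 hZ2 hpos2).com i
      rw [Matrix.mul_assoc, h8, ← Matrix.mul_assoc, h9, Matrix.mul_assoc]
    · intro σ
      have h1 : ∀ j, trace ((DZ (bigD ℂ Z2)).map (σ.symm : ℂ →+* ℂ) * (φ j).e) =
          (((Fa (ii j)).L (r j)).s σ : ℂ) := by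
        intro j
        rw [(Fa (ii j)).hs, ← hCA]
        have h2 : C' j * (DZ (bigD ℂ Z2)).map (σ.symm : ℂ →+* ℂ) =
            (DZ (bigD ℂ Z2)).map (σ.symm : ℂ →+* ℂ) * C' j := hC' j _ (Dσ_mem_LZ σ.symm)
        have h3 : A' j * (DZ (bigD ℂ Z2)).map (σ.symm : ℂ →+* ℂ) =
            (DZ (bigD ℂ Z2)).map (σ.symm : ℂ →+* ℂ) * A' j := hA j _ (Dσ_mem_LZ σ.symm)
        rw [← Matrix.mul_assoc, trace_mul_comm, ← Matrix.mul_assoc, h3, Matrix.mul_assoc, hAC']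
        have h4 := hP2D (ii j) σ.symm
        calc _ = trace (((DZ (bigD ℂ Z2)).map (σ.symm : ℂ →+* ℂ) * ((P2 (ii j))ᵀ *
              ((Fa (ii j)).V (r j) * (Fa (ii j)).Q (r j)))) * P2 (ii j)) := by
              simp only [Matrix.mul_assoc]
          _ = trace ((P2 (ii j) * (DZ (bigD ℂ Z2)).map (σ.symm : ℂ →+* ℂ)) *
              ((P2 (ii j))ᵀ * ((Fa (ii j)).V (r j) * (Fa (ii j)).Q (r j)))) := by
              rw [trace_mul_comm, Matrix.mul_assoc]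
          _ = trace ((DZ (Z2 (ii j))).map (σ.symm : ℂ →+* ℂ) * (P2 (ii j) *
              (P2 (ii j))ᵀ) * ((Fa (ii j)).V (r j) * (Fa (ii j)).Q (r j))) := by
              rw [h4]
              simp only [Matrix.mul_assoc]
          _ = _ := by rw [hP21, Matrix.mul_one]
      have h2 := htr σ.symm
      have h3 : ∑ j, (((Fa (ii j)).L (r j)).s σ : ℂ) = 0 := by
        rw [← h2]
        exact Finset.sum_congr rfl fun j _ => (h1 j).symm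
      exact_mod_cast h3
    · rw [hΨ]
      funext w
      congr 1
      · refine Finset.prod_congr rfl fun j _ => ?_
        congr 1
        ext x y
        rw [Matrix.of_apply, Matrix.of_apply, hN1', cK_mul, hP2, hPfq]
      · refine Finset.prod_congr rfl fun t _ => ?_
        rw [hN2']
  · rintro (⟨j, x⟩ | s)
    · rw [hX]
      have h1 : ∀ σ : ℂ ≃+* ℂ, (Pfᵀ * (A' j * C j x) * Pf) * (DZ W).map σ =
          (DZ W).map σ * (Pfᵀ * (A' j * C j x) * Pf) := by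
        intro σ
        have h2 : C j x * (DZ (bigD ℂ Z2)).map (σ : ℂ →+* ℂ) =
            (DZ (bigD ℂ Z2)).map (σ : ℂ →+* ℂ) * C j x := hC j x _ (Dσ_mem_LZ σ)
        have h3 : A' j * (DZ (bigD ℂ Z2)).map (σ : ℂ →+* ℂ) =
            (DZ (bigD ℂ Z2)).map (σ : ℂ →+* ℂ) * A' j := hA j _ (Dσ_mem_LZ σ)
        have h4 := hPfD σ
        have h5 := hPfD' σ
        change (Pfᵀ * (A' j * C j x) * Pf) * (DZ W).map (σ : ℂ →+* ℂ) =
          (DZ W).map (σ : ℂ →+* ℂ) * (Pfᵀ * (A' j * C j x) * Pf)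
        calc _ = Pfᵀ * (A' j * C j x) * (Pf * (DZ W).map (σ : ℂ →+* ℂ)) := by
              simp only [Matrix.mul_assoc]
          _ = Pfᵀ * (A' j * (C j x * (DZ (bigD ℂ Z2)).map (σ : ℂ →+* ℂ))) * Pf := by
              rw [h4]
              simp only [Matrix.mul_assoc]
          _ = Pfᵀ * ((A' j * (DZ (bigD ℂ Z2)).map (σ : ℂ →+* ℂ)) * C j x) * Pf := by
              rw [h2]
              simp only [Matrix.mul_assoc]
          _ = (Pfᵀ * (DZ (bigD ℂ Z2)).map (σ : ℂ →+* ℂ)) * (A' j * C j x) * Pf := by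
              rw [h3]
              simp only [Matrix.mul_assoc]
          _ = _ := by
              rw [← h5]
              simp only [Matrix.mul_assoc]
      exact span_homs h1
    · rw [hX]
      have h1 := hG2 s
      rw [← hWd] at h1
      exact span_bil h1

end core

end Pool.Agent.Q180.UW
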