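import Mathlib
import Pool.Agent.Q180.UW.Core
import Pool.Agent.Q176.D3.Close
import Pool.Agent.Q60.D3C.Stm

/-!
# Abelian varieties isogenous to a product
-/

set_option linter.unusedSectionVars false
set_option linter.unusedVariables false

namespace Pool.Agent.Q180.UW

open Matrix Module Pool.Agent.H204R3.CM Pool.Agent.H204R3.SP Pool.Agent.W437.HC
  Pool.Agent.W437.HD Pool.Agent.W437.HP Pool.Agent.W437.HR
open Pool.Agent.Q60.D3 (AV IsHom IsCM IsSimple HasWeight ofZ Comm S_nf IsIsogenousToProd hom_of_comm)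

/-- A bijective homomorphism comes with an isomorphism of the tangent spaces. -/
theorem tangent_equiv (X Y : AV) (a : X.H ≃ₗ[ℚ] Y.H) (h : IsHom X Y a.toLinearMap) :
    ∃ c : X.T ≃ₗ[ℂ] Y.T, ∀ w, c (X.per w) = Y.per (a w) := by
  obtain ⟨C, hC⟩ := h
  have hs : Function.Surjective C := by
    rw [← LinearMap.range_eq_top, eq_top_iff]
    intro y _
    have h1 : y ∈ Submodule.span ℝ (Set.range Y.per) := by
      rw [Y.span]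
      trivial
    have h2 : Submodule.span ℝ (Set.range Y.per) ≤ (LinearMap.range C).restrictScalars ℝ := by
      rw [Submodule.span_le]
      rintro _ ⟨w, rfl⟩
      refine ⟨X.per (a.symm w), ?_⟩
      rw [hC]
      change Y.per (a (a.symm w)) = _
      rw [a.apply_symm_apply]
    exact h2 h1
  have hd : finrank ℂ X.T = finrank ℂ Y.T := by
    have h1 := X.dim
    have h2 := Y.dim
    rw [a.finrank_eq] at h1
    omega
  exact ⟨LinearEquiv.ofBijective C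
    ⟨(LinearMap.injective_iff_surjective_of_finrank_eq_finrank hd).2 hs, hs⟩, hC⟩

/-- Homomorphisms to the factors give a homomorphism to the product. -/
theorem half {J : Type} [Fintype J] [DecidableEq J] (X : AV) (g : J → ℕ)
    (Z : ∀ j, Matrix (Fin (g j)) (Fin (g j)) ℂ)
    (q : ∀ j, X.H →ₗ[ℚ] (Fin (g j) ⊕ Fin (g j) → ℚ)) (C : ∀ j, X.T →ₗ[ℂ] (Fin (g j) → ℂ))
    (hC : ∀ j w, C j (X.per w) = perOne (Z j) (q j w)) :
    ∃ (al : X.H →ₗ[ℚ] (Fin (NB g) ⊕ Fin (NB g) → ℚ)) (cl : X.T →ₗ[ℂ] (Fin (NB g) → ℂ)),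
      (∀ w, cl (X.per w) = perOne (bigD ℂ Z) (al w)) ∧ (∀ j v, pm g ℚ j *ᵥ al v = q j v) ∧
      ∀ v y, (∀ j, pm g ℚ j *ᵥ y = q j v) → al v = y := by
  let al : X.H →ₗ[ℚ] (Fin (NB g) ⊕ Fin (NB g) → ℚ) :=
    ∑ i, (Matrix.mulVecLin (pm g ℚ i)ᵀ) ∘ₗ (q i)
  have hal : ∀ v, al v = ∑ i, (pm g ℚ i)ᵀ *ᵥ (q i v) := by
    intro v
    simp only [al, LinearMap.sum_apply]
    rfl
  have hpa : ∀ i v, pm g ℚ i *ᵥ al v = q i v := by
    intro i v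
    rw [hal, mulVec_sum, Finset.sum_eq_single i]
    · rw [mulVec_mulVec, pm_same, one_mulVec]
    · intro j _ hj
      rw [mulVec_mulVec, pm_off ℚ (Ne.symm hj), zero_mulVec]
    · intro h
      exact absurd (Finset.mem_univ _) h
  let cl : X.T →ₗ[ℂ] (Fin (NB g) → ℂ) :=
    ∑ i, (Matrix.mulVecLin (qm g ℂ i)ᵀ) ∘ₗ (C i)
  have hcl : ∀ v, cl v = ∑ i, (qm g ℂ i)ᵀ *ᵥ (C i v) := by
    intro v
    simp only [cl, LinearMap.sum_apply]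
    rfl
  refine ⟨al, cl, ?_, hpa, ?_⟩
  · intro w
    rw [hcl]
    have h3 : ∀ i, C i (X.per w) = qm g ℂ i *ᵥ perOne (bigD ℂ Z) (al w) := by
      intro i
      rw [hC, ← Pool.Agent.Q176.D3.perOne_pm Z i (al w), hpa]
    have h4 : ∑ i, (qm g ℂ i)ᵀ *ᵥ (C i (X.per w)) =
        (∑ i, (qm g ℂ i)ᵀ * qm g ℂ i) *ᵥ perOne (bigD ℂ Z) (al w) := by
      rw [sum_mulVec]
      refine Finset.sum_congr rfl fun i _ => ?_
      rw [h3, mulVec_mulVec]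
    rw [h4, qm_tot, one_mulVec]
  · intro v y h
    rw [hal]
    have h5 : ∑ i, (pm g ℚ i)ᵀ *ᵥ (q i v) = (∑ i, (pm g ℚ i)ᵀ * pm g ℚ i) *ᵥ y := by
      rw [sum_mulVec]
      refine Finset.sum_congr rfl fun i _ => ?_
      rw [← h, mulVec_mulVec]
    rw [h5, pm_tot, one_mulVec]

/-- Two maps as a family. -/
def qB {X : Type} [AddCommGroup X] [Module ℚ X] {g1 g0 : ℕ}
    (q1 : X →ₗ[ℚ] (Fin g1 ⊕ Fin g1 → ℚ)) (q0 : X →ₗ[ℚ] (Fin g0 ⊕ Fin g0 → ℚ)) :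
    ∀ b, X →ₗ[ℚ] (Fin (gB g1 g0 b) ⊕ Fin (gB g1 g0 b) → ℚ)
  | true => q1
  | false => q0

/-- Two maps as a family. -/
def cB {X : Type} [AddCommGroup X] [Module ℂ X] {g1 g0 : ℕ}
    (q1 : X →ₗ[ℂ] (Fin g1 → ℂ)) (q0 : X →ₗ[ℂ] (Fin g0 → ℂ)) :
    ∀ b, X →ₗ[ℂ] (Fin (gB g1 g0 b) → ℂ)
  | true => q1
  | false => q0

/-- The product of two products. -/
theorem two_level {J1 J0 : Type} [Fintype J1] [DecidableEq J1] [Fintype J0] [DecidableEq J0]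
    (X : AV) (g1 : J1 → ℕ) (Z1 : ∀ j, Matrix (Fin (g1 j)) (Fin (g1 j)) ℂ)
    (g0 : J0 → ℕ) (Z0 : ∀ j, Matrix (Fin (g0 j)) (Fin (g0 j)) ℂ)
    (hZ1 : ∀ j, (Z1 j)ᵀ = Z1 j) (hpos1 : ∀ j, (imM (Z1 j)).PosDef)
    (hZ0 : ∀ j, (Z0 j)ᵀ = Z0 j) (hpos0 : ∀ j, (imM (Z0 j)).PosDef)
    (q1 : ∀ j, X.H →ₗ[ℚ] (Fin (g1 j) ⊕ Fin (g1 j) → ℚ)) (C1 : ∀ j, X.T →ₗ[ℂ] (Fin (g1 j) → ℂ))
    (hC1 : ∀ j w, C1 j (X.per w) = perOne (Z1 j) (q1 j w))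
    (q0 : ∀ j, X.H →ₗ[ℚ] (Fin (g0 j) ⊕ Fin (g0 j) → ℚ)) (C0 : ∀ j, X.T →ₗ[ℂ] (Fin (g0 j) → ℂ))
    (hC0 : ∀ j w, C0 j (X.per w) = perOne (Z0 j) (q0 j w))
    (hinj : ∀ v, (∀ j, q1 j v = 0) → (∀ j, q0 j v = 0) → v = 0)
    (hsurj : ∀ (t1 : ∀ j, Fin (g1 j) ⊕ Fin (g1 j) → ℚ) (t0 : ∀ j, Fin (g0 j) ⊕ Fin (g0 j) → ℚ),
      ∃ v, (∀ j, q1 j v = t1 j) ∧ ∀ j, q0 j v = t0 j) :
    ∃ (a : X.H ≃ₗ[ℚ] (Fin (NB (gB (NB g1) (NB g0))) ⊕ Fin (NB (gB (NB g1) (NB g0))) → ℚ))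
      (c : X.T ≃ₗ[ℂ] (Fin (NB (gB (NB g1) (NB g0))) → ℂ)),
      ∀ w, c (X.per w) = perOne (bigD ℂ (ZB (bigD ℂ Z1) (bigD ℂ Z0))) (a w) := by
  have hb1pos : (imM (bigD ℂ Z1)).PosDef := imM_bigD_posDef Z1 hpos1
  have hb1symm : (bigD ℂ Z1)ᵀ = bigD ℂ Z1 := bigD_symm hZ1
  have hb0pos : (imM (bigD ℂ Z0)).PosDef := imM_bigD_posDef Z0 hpos0
  have hb0symm : (bigD ℂ Z0)ᵀ = bigD ℂ Z0 := bigD_symm hZ0
  have hZ : ∀ b, (ZB (bigD ℂ Z1) (bigD ℂ Z0) b)ᵀ = ZB (bigD ℂ Z1) (bigD ℂ Z0) b := by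
    rintro (_ | _)
    · exact hb0symm
    · exact hb1symm
  have hpos : ∀ b, (imM (ZB (bigD ℂ Z1) (bigD ℂ Z0) b)).PosDef := by
    rintro (_ | _)
    · exact hb0pos
    · exact hb1pos
  have hWpos : (imM (bigD ℂ (ZB (bigD ℂ Z1) (bigD ℂ Z0)))).PosDef := imM_bigD_posDef _ hpos
  have hWsymm : (bigD ℂ (ZB (bigD ℂ Z1) (bigD ℂ Z0)))ᵀ = bigD ℂ (ZB (bigD ℂ Z1) (bigD ℂ Z0)) :=
    bigD_symm hZ
  obtain ⟨al1, cl1, h1c, h1p, h1u⟩ := half X g1 Z1 q1 C1 hC1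
  obtain ⟨al0, cl0, h0c, h0p, h0u⟩ := half X g0 Z0 q0 C0 hC0
  obtain ⟨al, cl, hc, hp, hu⟩ := half X (gB (NB g1) (NB g0)) (ZB (bigD ℂ Z1) (bigD ℂ Z0))
    (qB al1 al0) (cB cl1 cl0) (by
      rintro (_ | _) w
      · exact h0c w
      · exact h1c w)
  have hp1 : ∀ v, pm (gB (NB g1) (NB g0)) ℚ true *ᵥ al v = al1 v := fun v => hp true v
  have hp0 : ∀ v, pm (gB (NB g1) (NB g0)) ℚ false *ᵥ al v = al0 v := fun v => hp false v
  have hi : Function.Injective al := by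
    rw [injective_iff_map_eq_zero]
    intro v hv
    have e1 : al1 v = 0 := by rw [← hp1, hv, mulVec_zero]; rfl
    have e0 : al0 v = 0 := by rw [← hp0, hv, mulVec_zero]; rfl
    refine hinj v (fun j => ?_) fun j => ?_
    · rw [← h1p, e1, mulVec_zero]
    · rw [← h0p, e0, mulVec_zero]
  have hs : Function.Surjective al := by
    intro y
    obtain ⟨y1, hy1⟩ : ∃ y1 : Fin (NB g1) ⊕ Fin (NB g1) → ℚ,
      y1 = pm (gB (NB g1) (NB g0)) ℚ true *ᵥ y := ⟨_, rfl⟩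
    obtain ⟨y0, hy0⟩ : ∃ y0 : Fin (NB g0) ⊕ Fin (NB g0) → ℚ,
      y0 = pm (gB (NB g1) (NB g0)) ℚ false *ᵥ y := ⟨_, rfl⟩
    obtain ⟨v, hv1, hv0⟩ := hsurj (fun j => pm g1 ℚ j *ᵥ y1) (fun j => pm g0 ℚ j *ᵥ y0)
    refine ⟨v, hu v y ?_⟩
    rintro (_ | _)
    · change _ = al0 v
      rw [h0u v y0 fun j => (hv0 j).symm, hy0]
    · change _ = al1 v
      rw [h1u v y1 fun j => (hv1 j).symm, hy1]
  let a : X.H ≃ₗ[ℚ] (Fin (NB (gB (NB g1) (NB g0))) ⊕ Fin (NB (gB (NB g1) (NB g0))) → ℚ) :=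
    LinearEquiv.ofBijective al ⟨hi, hs⟩
  obtain ⟨c, hcc⟩ := tangent_equiv X (ofZ (bigD ℂ (ZB (bigD ℂ Z1) (bigD ℂ Z0))) hWsymm hWpos) a
    ⟨cl, hc⟩
  exact ⟨a, c, hcc⟩

/-- The data of a factor. -/
theorem data (𝒲 : Set (ℕ × ℕ)) (𝒞 : AV → Prop) (hfamc : S_famc) (hfamu : S_famu) (hodd : S_odd)
    (hprime : S_prime) (hutr : S_utr) (hcmd : Pool.Agent.Q60.D3C.S_cmd)
    (hcmd' : Pool.Agent.Q60.D3.S_cmd) (A : AV) (g : ℕ) (Z : Matrix (Fin g) (Fin g) ℂ)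
    (e : A.H ≃ₗ[ℚ] (Fin g ⊕ Fin g → ℚ)) (C : A.T ≃ₗ[ℂ] (Fin g → ℂ)) (hZ : Zᵀ = Z)
    (hpos : (imM Z).PosDef) (hC : ∀ w, C (A.per w) = perOne Z (e w))
    (hA : (IsCM A ∧ 𝒞 A) ∨ (∃ e M, (e, M) ∈ 𝒲 ∧ IsUnitary A e M) ∨
      (IsSimple A ∧ (finrank ℂ A.T = 1 ∨ (finrank ℂ A.T).Prime) ∧ ¬ IsCM A ∧
        ¬ ∃ e M, IsUnitary A e M) ∨
      (Odd (finrank ℂ A.T) ∧ ∀ h : A.H →ₗ[ℚ] A.H, IsHom A A h → ∃ a : ℚ, h = a • LinearMap.id)) :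
    HasPcs (DZ Z) ∨ Nonempty (Fam 𝒲 𝒞 Z hZ hpos) := by
  have hg : finrank ℂ A.T = g := by rw [C.finrank_eq, Module.finrank_fin_fun]
  have hC' : ∀ w, C.symm (perOne Z w) = A.per (e.symm w) := by
    intro w
    rw [C.symm_apply_eq, hC, e.apply_symm_apply]
  rcases hA with ⟨hcm, hin⟩ | ⟨d, M, hdM, hu⟩ | ⟨hs, hd, hncm, hnu⟩ | ⟨hd, hend⟩
  · right
    refine hfamc 𝒲 𝒞 g Z hZ hpos (hcmd A g Z e C hZ hpos hC hcm)
      ⟨A, e.symm.toLinearMap, hcm, hin, ⟨C.symm.toLinearMap, hC'⟩, e.symm.bijective⟩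
  · right
    exact hfamu 𝒲 𝒞 A g Z e C hZ hpos hC d M hdM hu
  · left
    have hd' : g ≤ 2 ∨ g.Prime := by
      rw [hg] at hd
      rcases hd with h | h
      · left
        omega
      · exact Or.inr h
    rcases hprime g Z hZ hpos hd'
      (Pool.Agent.Q176.D3.simple_transport A e C hC hs) with h | h | ⟨M, h⟩
    · exact absurd (hcmd' A g Z e C hZ hpos hC hs h) hncm
    · exact h
    · exact absurd ⟨2, M, hutr (ofZ Z hZ hpos) A e.symm C.symm hC' 2 M h⟩ hnu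
  · left
    rw [hg] at hd
    refine hodd g Z hZ hpos hd fun ψ hψ => ?_
    obtain ⟨D, hD⟩ := hom_of_comm hZ hpos hZ hpos hψ
    obtain ⟨a, ha⟩ := hend (e.symm.toLinearMap ∘ₗ (Matrix.mulVecLin ψ) ∘ₗ e.toLinearMap)
      ⟨C.symm.toLinearMap ∘ₗ D ∘ₗ C.toLinearMap, fun w => by
        change C.symm (D (C (A.per w))) = A.per (e.symm (ψ *ᵥ e w))
        rw [hC, ← hC']
        congr 1
        exact hD (e w)⟩
    refine ⟨a, ?_⟩
    have h1 : ∀ x, ψ *ᵥ x = a • x := by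
      intro x
      have h2 := LinearMap.congr_fun ha (e.symm x)
      change e.symm (ψ *ᵥ e (e.symm x)) = a • e.symm x at h2
      rw [e.apply_symm_apply, ← map_smul] at h2
      exact e.symm.injective h2
    ext i j
    have h2 := congrFun (h1 (Pi.single j 1)) i
    rw [mulVec_single_one] at h2
    rw [Matrix.smul_apply, Matrix.one_apply]
    change ψ i j = _ at h2
    rw [h2, Pi.smul_apply, Pi.single_apply]

/-- **The main theorem, from the lemmas.** -/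
theorem close (𝒲 : Set (ℕ × ℕ)) (𝒞 : AV → Prop)
    (h𝒞 : ∀ (e M : ℕ) (B : AV), (e, M) ∈ 𝒲 → IsCM B → 2 * finrank ℂ B.T = e → 𝒞 B)
    (hnf : S_nf) (hfamc : S_famc) (hfamu : S_famu) (hodd : S_odd)
    (hprime : S_prime) (hutr : S_utr) (hcmd : Pool.Agent.Q60.D3C.S_cmd)
    (hcmd' : Pool.Agent.Q60.D3.S_cmd) (hpcs : S_pcs)
    (hdesc : S_desc) (halt : S_good_alt) (hlin : S_good_lin) (hexp : S_exp)
    (haln : S_aln) (hwgt : Pool.Agent.Q60.D3.S_wgt) (hish : Pool.Agent.Q60.D3.S_ish)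
    (hbal : S_bal)
    (ι : Type) [Finite ι] (X : AV) (A : ι → AV) (hiso : IsIsogenousToProd X A)
    (hA : ∀ i, (IsCM (A i) ∧ 𝒞 (A i)) ∨ (∃ e M, (e, M) ∈ 𝒲 ∧ IsUnitary (A i) e M) ∨
      (IsSimple (A i) ∧ (finrank ℂ (A i).T = 1 ∨ (finrank ℂ (A i).T).Prime) ∧ ¬ IsCM (A i) ∧
        ¬ ∃ e M, IsUnitary (A i) e M) ∨
      (Odd (finrank ℂ (A i).T) ∧
        ∀ h : (A i).H →ₗ[ℚ] (A i).H, IsHom (A i) (A i) h → ∃ a : ℚ, h = a • LinearMap.id))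
    (κ : Type) [Finite κ] (f : X.H [⋀^κ]→ₗ[ℚ] ℚ) (hf : IsHodge X.per f) : Gen 𝒲 𝒞 X κ f := by
  classical
  obtain ⟨_⟩ := nonempty_fintype ι
  obtain ⟨_⟩ := nonempty_fintype κ
  obtain ⟨p, hp, hbij⟩ := hiso
  choose g Z e C hZ hpos hC using fun i => hnf (A i)
  choose Ct hCt using hp
  have hdat := fun i => data 𝒲 𝒞 hfamc hfamu hodd hprime hutr hcmd hcmd' (A i) (g i) (Z i) (e i)
    (C i) (hZ i) (hpos i) (hC i) (hA i)
  let J1 : Type := {i // HasPcs (DZ (Z i))}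
  let J0 : Type := {i // ¬ HasPcs (DZ (Z i))}
  have hFa : ∀ i : J0, Nonempty (Fam 𝒲 𝒞 (Z i.1) (hZ i.1) (hpos i.1)) := fun i =>
    (hdat i.1).resolve_left i.2
  have Fa := fun i : J0 => Classical.choice (hFa i)
  have hpc : ∀ i v, e i (p i v) = 0 → p i v = 0 := by
    intro i v h
    exact (e i).injective (by rw [h, map_zero])
  have hQ : ∀ i w, (C i) (Ct i (X.per w)) = perOne (Z i) (e i (p i w)) := by
    intro i w
    rw [hCt, hC]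
  obtain ⟨a, c, hac⟩ := two_level (J1 := J1) (J0 := J0) X (fun j => g j.1) (fun j => Z j.1)
    (fun j => g j.1) (fun j => Z j.1) (fun j => hZ j.1) (fun j => hpos j.1) (fun j => hZ j.1)
    (fun j => hpos j.1) (fun j => (e j.1).toLinearMap ∘ₗ p j.1)
    (fun j => (C j.1).toLinearMap ∘ₗ Ct j.1) (fun j w => hQ j.1 w)
    (fun j => (e j.1).toLinearMap ∘ₗ p j.1)
    (fun j => (C j.1).toLinearMap ∘ₗ Ct j.1) (fun j w => hQ j.1 w) (by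
      intro v h1 h0
      apply hbij.1
      funext i
      change p i v = p i 0
      rw [map_zero]
      by_cases h : HasPcs (DZ (Z i))
      · exact hpc i v (h1 ⟨i, h⟩)
      · exact hpc i v (h0 ⟨i, h⟩)) (by
      intro t1 t0
      obtain ⟨v, hv⟩ := hbij.2 fun i => if h : HasPcs (DZ (Z i)) then (e i).symm (t1 ⟨i, h⟩)
        else (e i).symm (t0 ⟨i, h⟩)
      refine ⟨v, fun j => ?_, fun j => ?_⟩
      · change e j.1 (p j.1 v) = _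
        have h1 : p j.1 v = _ := congrFun hv j.1
        rw [h1, dif_pos j.2, LinearEquiv.apply_symm_apply]
      · change e j.1 (p j.1 v) = _
        have h1 : p j.1 v = _ := congrFun hv j.1
        rw [h1, dif_neg j.2, LinearEquiv.apply_symm_apply])
  exact core 𝒲 𝒞 (bigD ℂ fun j : J1 => Z j.1) (bigD_symm fun j : J1 => hZ j.1)
    (imM_bigD_posDef _ fun j : J1 => hpos j.1) (fun j : J0 => g j.1) (fun j => Z j.1)
    (fun j => hZ j.1) (fun j => hpos j.1) Fa X a c h𝒞 hdesc halt hlin hexp haln hwgt hish hbal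
    (hpcs J1 (fun j => g j.1) (fun j => Z j.1) (fun j => hZ j.1) (fun j => hpos j.1) fun j => j.2)
    hac κ f hf

end Pool.Agent.Q180.UW
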