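import Mathlib
import Pool.Agent.Q180.UW.StmL
import Pool.Agent.Q180.D3.Exp

/-!
# Systems of letters, and the expansion of the tensors killed by a Lie algebra
-/

set_option linter.unusedSectionVars false
set_option linter.unusedVariables false

namespace Pool.Agent.Q180.UW

open Matrix Module Pool.Agent.H204R3.SP Pool.Agent.W437.HC Pool.Agent.W437.HD

open Pool.Agent.Q59.GC (Labels Letter)

/-- A system of letters for a set `L` of matrices: classes `P`, letters `R`, pieces `𝒜`. -/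
structure Sy (B : Type) [Fintype B] [DecidableEq B] (L : Set (Matrix B B ℂ)) where
  P : Type
  [fP : Fintype P]
  [dP : DecidableEq P]
  R : Type
  [fR : Fintype R]
  [dR : DecidableEq R]
  𝒜 : Type
  [fA : Fintype 𝒜]
  [dA : DecidableEq 𝒜]
  b : P → P
  cls : R → P
  inv : R → R
  jj : R → ℂ
  cl : 𝒜 → P
  co : 𝒜 → R → (B → ℂ) →ₗ[ℂ] ℂ
  ev : 𝒜 → R → B → ℂ
  wt : P → (ℂ ≃+* ℂ) → ℂ
  hbb : ∀ p, b (b p) = p
  hinv : ∀ x, inv (inv x) = x
  hne : ∀ x, inv x ≠ x
  hjj : ∀ x, jj (inv x) = -jj x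
  hj0 : ∀ x, jj x ≠ 0
  hci : ∀ x, cls (inv x) = b (cls x)
  tot : ∀ v, v = ∑ a, ∑ z, co a z v • ev a z
  hev : ∀ a z, cls z ≠ cl a → ev a z = 0
  hco : ∀ a z, cls z ≠ cl a → co a z = 0
  root : ∀ x y, b (cls x) = cls y → (y ≠ inv x ∨ b (cls x) = cls x) →
    ∃ X ∈ L, ∀ a z, X *ᵥ ev a z = JJ inv jj y z • ev a x + JJ inv jj x z • ev a y
  tor : ∀ σ, ∃ X ∈ L, ∀ a z, X *ᵥ ev a z = wt (cls z) σ • ev a z
  hwt : ∀ p σ, wt (b p) σ = -wt p σ

attribute [instance] Sy.fP Sy.dP Sy.fR Sy.dR Sy.fA Sy.dA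

namespace Sy

variable {B : Type} [Fintype B] [DecidableEq B]

/-- The value of the bilinear form of the class `p`. -/
noncomputable def form {L : Set (Matrix B B ℂ)} (S : Sy B L) (p : S.P) (a a' : S.𝒜)
    (y y' : B → ℂ) : ℂ :=
  ∑ z, if S.cls z = p then S.jj z * (S.co a z y * S.co a' (S.inv z) y') else 0

/-- **The expansion.** -/
theorem expand {D : Matrix B B ℂ} (S : Sy B (lieM D ℂ : Set (Matrix B B ℂ))) (hlab : S_lab)
    (κ : Type) [Fintype κ] [DecidableEq κ] (c : (κ → B) → ℚ) (hc : IsH D c) :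
    cst ℂ c ∈ Submodule.span ℂ {F : (κ → B) → ℂ |
      ∃ (l p : ℕ) (q : Fin l → S.P) (ν : Fin p → S.P) (n : Fin l → ℕ)
        (ζ : ∀ j, Fin (n j) ≃ {z // S.cls z = q j})
        (e : (Σ j : Fin l, Fin (n j)) ⊕ (Fin p × Fin 2) ≃ κ) (α : κ → S.𝒜),
        (∀ j, S.b (q j) ≠ q j) ∧ (∀ σ, ∑ j, (n j : ℂ) * S.wt (q j) σ = 0) ∧
        F = fun w => (∏ j, (Matrix.of fun x y : Fin (n j) =>
            S.co (α (e (Sum.inl ⟨j, x⟩))) (ζ j y).1
              (Pi.single (w (e (Sum.inl ⟨j, x⟩))) 1)).det) *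
          ∏ s, S.form (ν s) (α (e (Sum.inr (s, 0)))) (α (e (Sum.inr (s, 1))))
            (Pi.single (w (e (Sum.inr (s, 0)))) 1) (Pi.single (w (e (Sum.inr (s, 1)))) 1)} := by
  classical
  obtain ⟨Λ, η, ho, hst, hη1, hη2⟩ := hlab S.P S.R S.cls S.inv S.b S.hbb S.hinv S.hne S.hci
  have hη3 : ∀ p (i : Fin (Λ.dim p)), S.cls (η.symm ⟨p, i⟩) = p := by
    intro p i
    rw [← hη1, Equiv.apply_symm_apply]
  let e1 : ∀ p, Fin (Λ.dim p) ≃ {x // S.cls x = p} := fun p =>
    { invFun := fun x => Fin.cast (by rw [hη1, x.2]) (η x.1).2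
      toFun := fun i => ⟨η.symm ⟨p, i⟩, by rw [← hη1, Equiv.apply_symm_apply]⟩
      right_inv := by
        rintro ⟨x, rfl⟩
        apply Subtype.ext
        apply η.injective
        rw [Equiv.apply_symm_apply]
        exact Pool.Agent.Q59.GC.letter_ext (hη1 x).symm rfl
      left_inv := by
        intro i
        apply Fin.ext
        change ((η (η.symm ⟨p, i⟩)).2 : ℕ) = i
        rw [Equiv.apply_symm_apply] }
  have he1 : ∀ p i, (e1 p i).1 = η.symm ⟨p, i⟩ := fun p i => rfl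
  have hdsymm : ∀ z, η.symm (Pool.Agent.Q59.GC.dual z) = S.inv (η.symm z) := by
    intro z
    rw [Equiv.symm_apply_eq, ← hη2, Equiv.apply_symm_apply]
  have hJη : ∀ x y : Letter Λ, JJ Pool.Agent.Q59.GC.dual (fun z => S.jj (η.symm z)) x y =
      JJ S.inv S.jj (η.symm x) (η.symm y) := by
    intro x y
    unfold JJ
    have h1 : y = Pool.Agent.Q59.GC.dual x ↔ η.symm y = S.inv (η.symm x) := by
      rw [Equiv.symm_apply_eq, ← hη2, Equiv.apply_symm_apply]
    by_cases h : y = Pool.Agent.Q59.GC.dual x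
    · rw [if_pos h, if_pos (h1.1 h)]
    · rw [if_neg h, if_neg fun h' => h (h1.2 h')]
  have hexp := Pool.Agent.Q180.D3.exp_mem B D 3 S.P Λ S.𝒜 S.cl
    (fun a => Matrix.of fun z i => S.co a (η.symm z) (Pi.single i 1))
    (fun a z => S.ev a (η.symm z)) (fun z => S.jj (η.symm z)) S.wt
    ho ?_ (fun z => S.hj0 _) ?_ ?_ ?_ ?_ ?_ ?_ κ c hc
  · refine Submodule.span_mono ?_ hexp
    rintro f ⟨l, p, q, ν, e, a, h1, h2, rfl⟩
    refine ⟨l, p, q, ν, fun j => Λ.dim (q j), fun j => e1 (q j), e, a, fun j h => h1 j ?_, h2, ?_⟩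
    · rw [hst, h]
    · funext w
      congr 1
      refine Finset.prod_congr rfl fun s _ => ?_
      unfold form
      rw [← η.symm.sum_comp, Fintype.sum_sigma, Finset.sum_eq_single (ν s)]
      · refine Finset.sum_congr rfl fun i _ => ?_
        rw [if_pos (hη3 _ _), Matrix.of_apply, Matrix.of_apply, hdsymm]
      · intro p' _ hp'
        refine Finset.sum_eq_zero fun i _ => ?_
        rw [if_neg (by rw [hη3]; exact hp')]
      · intro h
        exact absurd (Finset.mem_univ _) h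
  · intro z
    change S.jj (η.symm (Pool.Agent.Q59.GC.dual z)) = _
    rw [hdsymm, S.hjj]
  · intro i
    conv_lhs => rw [S.tot (Pi.single i 1)]
    refine Finset.sum_congr rfl fun a _ => ?_
    rw [← η.symm.sum_comp]
    rfl
  · intro a z hz
    exact S.hev a _ fun h => hz (by rw [← h, ← hη1, Equiv.apply_symm_apply])
  · intro a z i hz
    rw [Matrix.of_apply, S.hco a _ (fun h => hz (by rw [← h, ← hη1, Equiv.apply_symm_apply])),
      LinearMap.zero_apply]
  · intro x y hxy h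
    have hx : S.cls (η.symm x) = x.1 := by rw [← hη1, Equiv.apply_symm_apply]
    have hy : S.cls (η.symm y) = y.1 := by rw [← hη1, Equiv.apply_symm_apply]
    rw [Pool.Agent.Q59.GC.dual_fst, hst] at hxy
    obtain ⟨X, hX, hX2⟩ := S.root (η.symm x) (η.symm y) (by rw [hx, hy, hxy]) (by
        rcases h with h | h
        · left
          rw [← hdsymm]
          exact fun h' => h (η.symm.injective h')
        · right
          rw [hst] at h
          rw [hx, h])
    refine ⟨X, hX, fun a z => ?_⟩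
    rw [hX2, hJη, hJη]
  · intro σ
    obtain ⟨X, hX, hX1⟩ := S.tor σ
    refine ⟨X, hX, fun a z => ?_⟩
    rw [hX1]
    rw [show S.cls (η.symm z) = z.1 by rw [← hη1, Equiv.apply_symm_apply]]
  · intro p σ
    rw [hst, S.hwt]

end Sy

end Pool.Agent.Q180.UW
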