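import Mathlib
import Pool.Agent.Q180.UW.Sy
import Pool.Agent.Q180.WT.Expw

/-!
# The system of letters of an abelian variety with coprime and separated places
-/

set_option linter.unusedSectionVars false
set_option linter.unusedVariables false

namespace Pool.Agent.Q180.WT

open Matrix Module Pool.Agent.H204R3.CM Pool.Agent.H204R3.SP Pool.Agent.H204R3.GP
  Pool.Agent.H194R3.CM Pool.Agent.W437.HC
  Pool.Agent.W437.HD Pool.Agent.W437.HQ Pool.Agent.W548.Odd Pool.Agent.TH125 Pool.Agent.Y4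
  Pool.Agent.Y4.G Pool.Agent.Y4.K

open Pool.Agent.Y4.H (exists_prims LZ Ct map_smul_aut' D_mem_LZ Dσ_mem_LZ)

namespace Fr

variable {g : ℕ} {Z : Matrix (Fin g) (Fin g) ℂ} {M : Pol Z} (F : Fr M)

/-- The elements of the Lie algebra given by two letters. -/
theorem exists_rootLZ (hcop : M.Cop) (hsep : M.Sep) (hmem : S_memtr) (x y : F.R)
    (hxy : F.b (F.cls x) = F.cls y) (h : y ≠ F.inv x ∨ F.b (F.cls x) = F.cls x) :
    ∃ X ∈ LZ Z, (∀ c, Ct Z c → X * c = c * X) ∧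
      ∀ z, X *ᵥ F.ev z = JJ F.inv F.jj y z • F.ev x + JJ F.inv F.jj x z • F.ev y := by
  obtain ⟨S, hSd⟩ : ∃ S, S = SS F.O (F.ev x) (F.ev y) := ⟨_, rfl⟩
  have hSc : ∀ p, (F.ρ p).e * S = S * (F.ρ p).e := by
    intro p
    have e1 : S * (F.ρ p).e = ((vecMulVec (F.ev x) (F.ev y) + vecMulVec (F.ev y) (F.ev x)) *
        (F.ρ (F.b p)).eᵀ) * F.O := by
      rw [hSd]
      unfold SS
      rw [mul_assoc, F.Oρ, ← mul_assoc]
    have e2 : (F.ρ p).e * S = ((F.ρ p).e *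
        (vecMulVec (F.ev x) (F.ev y) + vecMulVec (F.ev y) (F.ev x))) * F.O := by
      rw [hSd]
      unfold SS
      rw [← mul_assoc]
    rw [e1, e2]
    congr 1
    rw [mul_add, add_mul, mul_vecMulVec,
      mul_vecMulVec, vecMulVec_mul, vecMulVec_mul, vecMul_transpose, vecMul_transpose,
      F.hv, F.hv, F.hv, F.hv, ← hxy]
    by_cases h1 : F.cls x = p
    · have h2 : F.b (F.cls x) = F.b p := by rw [h1]
      by_cases h3 : F.b (F.cls x) = p
      · have h4 : F.cls x = F.b p := by rw [← h3, F.Dt.bb]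
        rw [if_pos h1, if_pos h2, if_pos h3, if_pos h4]
      · have h4 : F.cls x ≠ F.b p := fun h => h3 (by rw [h, F.Dt.bb])
        rw [if_pos h1, if_pos h2, if_neg h3, if_neg h4, zero_vecMulVec, vecMulVec_zero]
    · have h2 : F.b (F.cls x) ≠ F.b p := fun h => h1 (by rw [← F.Dt.bb (F.cls x), h, F.Dt.bb])
      by_cases h3 : F.b (F.cls x) = p
      · have h4 : F.cls x = F.b p := by rw [← h3, F.Dt.bb]
        rw [if_neg h1, if_neg h2, if_pos h3, if_pos h4, zero_vecMulVec, vecMulVec_zero]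
      · have h4 : F.cls x ≠ F.b p := fun h => h3 (by rw [h, F.Dt.bb])
        rw [if_neg h1, if_neg h2, if_neg h3, if_neg h4, zero_vecMulVec, vecMulVec_zero,
          vecMulVec_zero, zero_vecMulVec]
  have hSsp : Sᵀ * (Om g ℂ * ∑ p, F.u p) + (Om g ℂ * ∑ p, F.u p) * S = 0 := by
    rw [hSd]
    exact SS_spOm F.OT _ _
  obtain ⟨X, hX1, hX2, hX3⟩ := M.morita F.Rp F.Dt hSc hSsp
  have hact : ∀ z, X *ᵥ F.ev z = JJ F.inv F.jj y z • F.ev x + JJ F.inv F.jj x z • F.ev y := by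
    intro z
    have h1 : X *ᵥ F.ev z = S *ᵥ F.ev z := by
      rw [← F.hev z, mulVec_mulVec, mulVec_mulVec, hX3]
    rw [h1, hSd, SS_mulVec, F.hJ', F.hJ']
  have htr : ∀ p, trace (X * (F.ρ p).e) = 0 := by
    intro p
    have h1 : trace (S * (F.ρ p).e) = (if F.cls x = p then JJ F.inv F.jj y x else 0) +
        (if F.cls y = p then JJ F.inv F.jj x y else 0) := by
      rw [hSd]
      unfold SS
      rw [trace_mul_comm, ← mul_assoc, mul_add, mul_vecMulVec, mul_vecMulVec, F.hv, F.hv, add_mul,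
        vecMulVec_mul, vecMulVec_mul, trace_add, trace_vecMulVec, trace_vecMulVec]
      congr 1
      · split_ifs with h2
        · rw [← F.hJ', dotProduct_comm, dotProduct_mulVec]
        · rw [zero_dotProduct]
      · split_ifs with h2
        · rw [← F.hJ', dotProduct_comm, dotProduct_mulVec]
        · rw [zero_dotProduct]
    rw [hX3, h1]
    rcases h with h | h
    · have h2 : JJ F.inv F.jj x y = 0 := by
        unfold JJ
        rw [if_neg h]
      have h3 : JJ F.inv F.jj y x = 0 := by rw [F.JJ_anti, h2, neg_zero]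
      rw [h2, h3]
      split_ifs <;> simp
    · rw [← hxy, h, F.JJ_anti y x]
      split_ifs <;> simp
  refine ⟨X, hmem g Z M hcop hsep X hX1 hX2 fun φ => ?_, hX1, hact⟩
  obtain ⟨p, hp⟩ := F.Rp.surj φ
  rw [← hp.trace fun c hc => (hX1 c hc).symm]
  exact htr p

end Fr

end Pool.Agent.Q180.WT

namespace Pool.Agent.Q180.UW

open Matrix Module Pool.Agent.H204R3.CM Pool.Agent.H204R3.SP Pool.Agent.H204R3.GP
  Pool.Agent.H194R3.CM Pool.Agent.W437.HC
  Pool.Agent.W437.HD Pool.Agent.W437.HQ Pool.Agent.W548.Odd Pool.Agent.TH125 Pool.Agent.Y4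
  Pool.Agent.Y4.G Pool.Agent.Y4.K
open Pool.Agent.Y4.H (exists_prims LZ Ct map_smul_aut' D_mem_LZ Dσ_mem_LZ)
open Pool.Agent.Q180.WT (Fr S_memtr S_tor)

variable {g : ℕ} {Z : Matrix (Fin g) (Fin g) ℂ} {M : Pol Z}

/-- The system of letters. -/
noncomputable def syF (F : Fr M) (hcop : M.Cop) (hsep : M.Sep) (hmem : S_memtr) (htor : S_tor) :
    Sy (Fin g ⊕ Fin g) (LZ Z : Set (Matrix (Fin g ⊕ Fin g) (Fin g ⊕ Fin g) ℂ)) where
  P := F.P
  R := F.R
  𝒜 := F.I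
  b := F.b
  cls := F.cls
  inv := F.inv
  jj := F.jj
  cl := F.r
  co := fun a z => LinearMap.proj z ∘ₗ Matrix.mulVecLin F.Co ∘ₗ Matrix.mulVecLin (F.β a)
  ev := fun a z => F.α a *ᵥ F.ev z
  wt := fun p σ => trace ((DZ Z).map (σ : ℂ →+* ℂ) * (F.ρ p).e) / trace (F.ρ p).e
  hbb := F.Dt.bb
  hinv := F.hinv
  hne := F.inv_ne
  hjj := F.hjj
  hj0 := F.hj0
  hci := F.hci
  tot := fun v => F.total v
  hev := fun a z h => F.αρ a z h
  hco := fun a z h => LinearMap.ext fun v => F.βρ a z h v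
  root := by
    intro x y hxy h
    obtain ⟨X, hX, hX1, hX2⟩ := F.exists_rootLZ hcop hsep hmem x y hxy h
    refine ⟨X, hX, fun a z => ?_⟩
    rw [mulVec_mulVec, hX1 _ (F.hαβ a).ca, ← mulVec_mulVec, hX2, mulVec_add, mulVec_smul,
      mulVec_smul]
  tor := by
    intro σ
    obtain ⟨X, hX, hX1⟩ := htor g Z M hcop hsep σ
    refine ⟨X, hX, fun a z => ?_⟩
    have h1 : X * F.α a = F.α a * X := ((F.hαβ a).ca X hX).symm
    rw [mulVec_mulVec, h1, ← mulVec_mulVec]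
    have h2 : X *ᵥ F.ev z = (trace ((DZ Z).map (σ : ℂ →+* ℂ) * (F.ρ (F.cls z)).e) /
        trace (F.ρ (F.cls z)).e) • F.ev z := by
      have h3 := F.hev z
      conv_lhs => rw [← h3, mulVec_mulVec, hX1, smul_mulVec, h3]
    rw [h2, mulVec_smul]
  hwt := by
    intro p σ
    have h1 : Eqv (F.ρ (F.b p)) (M.bar (F.ρ p)) := ⟨_, _, F.Dt.iso p⟩
    have hX : (DZ Z).map (σ : ℂ →+* ℂ) ∈ LZ Z := Dσ_mem_LZ σ
    have h2 := h1.trace (X := (DZ Z).map (σ : ℂ →+* ℂ)) fun c hc => hc _ hX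
    have h3 := h1.trace (X := 1) fun c hc => by rw [mul_one, one_mul]
    rw [one_mul, one_mul] at h3
    have h4 : trace (M.bar (F.ρ p)).e = trace (F.ρ p).e := by
      rw [M.trace_e, M.trace_e, M.bar_bar, add_comm]
    rw [h2, h3, h4, M.trace_bar hX, neg_div]

/-- The bilinear form of a class. -/
theorem syF_form (F : Fr M) (hcop : M.Cop) (hsep : M.Sep) (hmem : S_memtr) (htor : S_tor)
    (p : F.P) (a a' : F.I) (y y' : Fin g ⊕ Fin g → ℂ) :
    (syF F hcop hsep hmem htor).form p a a' y y' =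
      y ⬝ᵥ (((F.β a)ᵀ * ((F.ρ p).eᵀ * F.O) * F.β a') *ᵥ y') := by
  have h3 := F.pairing p (F.β a *ᵥ y) (F.β a' *ᵥ y')
  have h4 : y ⬝ᵥ (((F.β a)ᵀ * ((F.ρ p).eᵀ * F.O) * F.β a') *ᵥ y') =
      ((F.ρ p).e *ᵥ (F.β a *ᵥ y)) ⬝ᵥ (F.O *ᵥ (F.β a' *ᵥ y')) := by
    rw [← mulVec_mulVec, ← mulVec_mulVec, ← mulVec_mulVec]
    rw [dotProduct_mulVec _ (F.β a)ᵀ, vecMul_transpose,
      dotProduct_mulVec _ (F.ρ p).eᵀ, vecMul_transpose]
  rw [h4, ← h3]
  rfl

end Pool.Agent.Q180.UW
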