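import Mathlib
import Pool.Agent.Q180.UW.Sy

/-!
# The system of letters of a space on which a Lie algebra acts by full symplectic Lie algebras
-/

set_option linter.unusedSectionVars false
set_option linter.unusedVariables false

namespace Pool.Agent.Q180.UW

open Matrix Module Pool.Agent.H204R3.SP Pool.Agent.H204R3.GP Pool.Agent.W437.HC
  Pool.Agent.W437.HD Pool.Agent.W437.HP

/-- The system of letters. -/
theorem exists_syP {B : Type} [Fintype B] [DecidableEq B] {𝒜 : Type} [Fintype 𝒜]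
    [DecidableEq 𝒜] {N : 𝒜 → Type} [∀ a, AddCommGroup (N a)] [∀ a, Module ℂ (N a)]
    [∀ a, FiniteDimensional ℂ (N a)] [∀ a, Nontrivial (N a)] {𝓘 : Type} [AddCommGroup 𝓘]
    [Module ℂ 𝓘] {br : 𝓘 → 𝓘 → 𝓘}
    (s : Sys 𝓘 br N) (act : 𝓘 →ₗ[ℂ] Matrix B B ℂ) (inc : ∀ a, N a →ₗ[ℂ] (B → ℂ))
    (prj : ∀ a, (B → ℂ) →ₗ[ℂ] N a) (hip : ∀ y, y = ∑ a, inc a (prj a y))
    (hinc : ∀ a (X : 𝓘) u, act X *ᵥ inc a u = inc a (s.ρ a X u))
    (hprj : ∀ a (X : 𝓘) y, prj a (act X *ᵥ y) = s.ρ a X (prj a y)) :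
    ∃ S : Sy B (Set.range act), (∀ p, S.b p = p) ∧ (∀ p σ, S.wt p σ = 0) ∧
      ∀ p a a', ∃ G : Matrix B B ℂ, (∀ y y', S.form p a a' y y' = y ⬝ᵥ (G *ᵥ y')) ∧
        ∀ X, (act X)ᵀ * G + G * act X = 0 := by
  classical
  -- the classes
  let Q := Quotient (lset s)
  let r : Q → 𝒜 := Quotient.out
  have hr : ∀ (q : Q) (a : 𝒜), Lnk s (r q) a ↔ q = (Quotient.mk (lset s) a) := by
    intro q a
    constructor
    · intro h
      rw [← Quotient.out_eq q]
      exact Quotient.sound h
    · rintro rfl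
      exact @Quotient.exact _ (lset s) (r (Quotient.mk (lset s) a)) a (Quotient.out_eq _)
  have : Fintype Q := Fintype.ofFinite Q
  have hF : ∀ (q : Q) (a : 𝒜), ∃ (f : N (r q) →ₗ[ℂ] N a) (f' : N a →ₗ[ℂ] N (r q)),
      (∀ X u, f (s.ρ (r q) X u) = s.ρ a X (f u)) ∧
      (∀ X u, f' (s.ρ a X u) = s.ρ (r q) X (f' u)) ∧
      (q = Quotient.mk (lset s) a → (∀ x y, s.w a (f x) (f y) = s.w (r q) x y) ∧
        (∀ u, f (f' u) = u) ∧ (∀ u, f' (f u) = u)) ∧
      (q ≠ Quotient.mk (lset s) a → f = 0 ∧ f' = 0) := by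
    intro q a
    by_cases hq : q = Quotient.mk (lset s) a
    · obtain ⟨f, h1, h2⟩ := (hr q a).2 hq
      refine ⟨f, f.symm, h1, fun X u => ?_, fun _ => ⟨h2, fun u => f.apply_symm_apply u,
        fun u => f.symm_apply_apply u⟩, fun h => absurd hq h⟩
      change f.symm _ = s.ρ (r q) X (f.symm u)
      rw [LinearEquiv.symm_apply_eq, h1, LinearEquiv.apply_symm_apply]
    · refine ⟨0, 0, fun X u => ?_, fun X u => ?_, fun h => absurd h hq, fun _ => ⟨rfl, rfl⟩⟩
      · simp
      · simp
  choose Φ Ψ hΦe hΨe hΦΨ hΦ0 using hF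
  -- symplectic bases
  have hD : ∀ q : Q, ∃ (R : Type) (_ : Fintype R) (_ : DecidableEq R)
      (e : Basis R ℂ (N (r q))) (inv : R → R) (jj : R → ℂ),
      (∀ x, inv (inv x) = x) ∧ (∀ x, inv x ≠ x) ∧ (∀ x, jj (inv x) = -jj x) ∧
      (∀ x, jj x = 1 ∨ jj x = -1) ∧ ∀ x y, s.w (r q) (e x) (e y) = JJ inv jj x y := by
    intro q
    obtain ⟨R, h1, h2, e, inv, jj, h3, h4, h5, h6, h7⟩ := exists_darboux
      (finrank ℂ (N (r q))) (N (r q)) (s.w (r q)) (s.alt (r q))
      (fun u hu => s.nd (r q) u fun v => by rw [w_anti (s.alt (r q)), hu, neg_zero]) le_rfl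
    exact ⟨R, h1, h2, e, inv, jj, h3, h4, h5, h6, h7⟩
  choose R hR1 hR2 e inv jj h3 h4 h5 h6 h7 using hD
  have hJ : ∀ (q : Q) (x x' : R q), JJ (fun y : (Σ q, R q) => (⟨y.1, inv y.1 y.2⟩ : Σ q, R q))
      (fun y => jj y.1 y.2) (⟨q, x⟩ : Σ q, R q) ⟨q, x'⟩ = s.w (r q) (e q x) (e q x') := by
    intro q x x'
    rw [h7]
    unfold JJ
    by_cases hx : x' = inv q x
    · rw [if_pos hx, if_pos (by rw [hx])]
    · rw [if_neg hx, if_neg]
      intro h
      apply hx
      simpa using h
  have hJ0 : ∀ (q q' : Q) (x : R q) (x' : R q'), q ≠ q' →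
      JJ (fun y : (Σ q, R q) => (⟨y.1, inv y.1 y.2⟩ : Σ q, R q))
      (fun y => jj y.1 y.2) (⟨q, x⟩ : Σ q, R q) ⟨q', x'⟩ = 0 := by
    intro q q' x x' hq
    unfold JJ
    rw [if_neg]
    intro h
    exact hq (congrArg Sigma.fst h).symm
  let S : Sy B (Set.range act) :=
    { P := Q
      R := Σ q, R q
      𝒜 := 𝒜
      b := id
      cls := Sigma.fst
      inv := fun x => ⟨x.1, inv x.1 x.2⟩
      jj := fun x => jj x.1 x.2
      cl := fun a => Quotient.mk (lset s) a
      co := fun a y => (e y.1).coord y.2 ∘ₗ Ψ y.1 a ∘ₗ prj a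
      ev := fun a y => inc a (Φ y.1 a (e y.1 y.2))
      wt := fun _ _ => 0
      hbb := fun _ => rfl
      hinv := by
        rintro ⟨p, x⟩
        simp only [h3]
      hne := by
        rintro ⟨p, x⟩ h
        apply h4 p x
        simpa using h
      hjj := by
        rintro ⟨p, x⟩
        simp only [h5]
      hj0 := by
        rintro ⟨p, x⟩
        rcases h6 p x with h | h
        · simp only [h]
          exact one_ne_zero
        · simp only [h]
          exact neg_ne_zero.2 one_ne_zero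
      hci := fun _ => rfl
      tot := by
        intro v
        conv_lhs => rw [hip v]
        refine Finset.sum_congr rfl fun a _ => ?_
        rw [Fintype.sum_sigma]
        have h8 : ∀ q, ∑ x : R q, ((e q).coord x ∘ₗ Ψ q a ∘ₗ prj a) v •
            inc a (Φ q a (e q x)) = inc a (Φ q a (Ψ q a (prj a v))) := by
          intro q
          conv_rhs => rw [← (e q).sum_repr (Ψ q a (prj a v))]
          rw [map_sum, map_sum]
          exact Finset.sum_congr rfl fun x _ => by
            rw [map_smul, map_smul]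
            rfl
        rw [Finset.sum_congr rfl (fun q _ => h8 q), Finset.sum_eq_single (Quotient.mk (lset s) a)]
        · rw [(hΦΨ _ a rfl).2.1]
        · intro q _ hq
          rw [(hΦ0 q a hq).1, LinearMap.zero_apply, map_zero]
        · intro h
          exact absurd (Finset.mem_univ _) h
      hev := by
        rintro a ⟨q, x⟩ hq
        simp only at hq ⊢
        rw [(hΦ0 q a hq).1, LinearMap.zero_apply, map_zero]
      hco := by
        rintro a ⟨q, x⟩ hq
        simp only at hq ⊢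
        rw [(hΦ0 q a hq).2, LinearMap.zero_comp, LinearMap.comp_zero]
      root := by
        rintro ⟨q, x⟩ ⟨q', x'⟩ hq -
        have hq' : q = q' := hq
        subst hq'
        obtain ⟨X, hX1, hX2, hX3⟩ := lift_class s (r q) (e q x) (e q x')
        refine ⟨act X, ⟨X, rfl⟩, ?_⟩
        rintro a ⟨q2, z⟩
        simp only
        rw [hinc]
        by_cases hqa : q = Quotient.mk (lset s) a
        · by_cases hq2 : q2 = q
          · subst hq2
            rw [hJ, hJ]
            let f : N (r q2) ≃ₗ[ℂ] N a := LinearEquiv.ofLinearMap (Φ q2 a) (Ψ q2 a)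
              (by
                ext u
                exact (hΦΨ q2 a hqa).2.1 u)
              (by
                ext u
                exact (hΦΨ q2 a hqa).2.2 u)
            have h8 := hX3 a f (hΦe q2 a) (hΦΨ q2 a hqa).1
            have hf : ∀ u, f u = Φ q2 a u := fun u => rfl
            rw [hf, hf] at h8
            rw [h8, EE_apply, (hΦΨ q2 a hqa).1, (hΦΨ q2 a hqa).1, map_add, map_smul, map_smul]
          · rw [hJ0 q q2 _ _ (Ne.symm hq2), hJ0 q q2 _ _ (Ne.symm hq2), zero_smul, zero_smul,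
              (hΦ0 q2 a (fun h => hq2 (h.trans hqa.symm))).1, LinearMap.zero_apply, map_zero,
              map_zero, add_zero]
        · rw [hX2 a (fun h => hqa ((hr q a).1 h)), (hΦ0 q a hqa).1]
          simp
      tor := by
        intro σ
        refine ⟨act 0, ⟨0, rfl⟩, fun a z => ?_⟩
        rw [map_zero, zero_mulVec, zero_smul]
      hwt := by
        intro p σ
        rw [neg_zero] }
  refine ⟨S, fun _ => rfl, fun _ _ => rfl, ?_⟩
  intro q a a'
  have hform : ∀ y y', S.form q a a' y y' = s.w (r q) (Ψ q a (prj a y)) (Ψ q a' (prj a' y')) := by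
    intro y y'
    have e0 : S.form q a a' y y' = ∑ z : (Σ q, R q), if z.1 = q then jj z.1 z.2 *
        ((e z.1).repr (Ψ z.1 a (prj a y)) z.2 *
          (e z.1).repr (Ψ z.1 a' (prj a' y')) (inv z.1 z.2)) else 0 := rfl
    rw [e0, Fintype.sum_sigma, Finset.sum_eq_single q]
    · conv_rhs => rw [← (e q).sum_repr (Ψ q a (prj a y)), ← (e q).sum_repr (Ψ q a' (prj a' y'))]
      rw [LinearMap.map_sum₂]
      refine Finset.sum_congr rfl fun x _ => ?_
      rw [if_pos rfl, map_smul, LinearMap.smul_apply, map_sum, smul_eq_mul,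
        Finset.sum_eq_single (inv q x)]
      · rw [map_smul, h7, smul_eq_mul]
        unfold JJ
        rw [if_pos rfl]
        ring
      · intro x' _ hx'
        rw [map_smul, h7]
        unfold JJ
        rw [if_neg hx', smul_zero]
      · intro h
        exact absurd (Finset.mem_univ _) h
    · intro q' _ hq'
      refine Finset.sum_eq_zero fun x _ => ?_
      rw [if_neg hq']
    · intro h
      exact absurd (Finset.mem_univ _) h
  obtain ⟨G, hG⟩ : ∃ G : Matrix B B ℂ, G = Matrix.of fun i j =>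
      s.w (r q) (Ψ q a (prj a (Pi.single i 1))) (Ψ q a' (prj a' (Pi.single j 1))) := ⟨_, rfl⟩
  have h9 : ∀ y y' : B → ℂ, y ⬝ᵥ (G *ᵥ y') = s.w (r q) (Ψ q a (prj a y))
      (Ψ q a' (prj a' y')) := by
    intro y y'
    have e1 : ∀ z : B → ℂ, z = ∑ i, z i • (Pi.single i 1 : B → ℂ) := by
      intro z
      funext j
      rw [Finset.sum_apply, Finset.sum_eq_single j]
      · simp
      · intro b _ hb
        rw [Pi.smul_apply, Pi.single_eq_of_ne (Ne.symm hb), smul_zero]
      · intro h
        exact absurd (Finset.mem_univ _) h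
    have e2 : Ψ q a (prj a y) = ∑ i, y i • Ψ q a (prj a (Pi.single i 1)) := by
      conv_lhs => rw [e1 y]
      rw [map_sum, map_sum]
      exact Finset.sum_congr rfl fun i _ => by rw [map_smul, map_smul]
    have e3 : Ψ q a' (prj a' y') = ∑ i, y' i • Ψ q a' (prj a' (Pi.single i 1)) := by
      conv_lhs => rw [e1 y']
      rw [map_sum, map_sum]
      exact Finset.sum_congr rfl fun i _ => by rw [map_smul, map_smul]
    rw [e2, e3, LinearMap.map_sum₂, hG]
    simp only [dotProduct, mulVec, map_smul, LinearMap.smul_apply, smul_eq_mul, map_sum,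
      Finset.mul_sum, Matrix.of_apply]
    refine Finset.sum_congr rfl fun i _ => Finset.sum_congr rfl fun j _ => ?_
    ring
  refine ⟨G, fun y y' => by rw [hform, h9], fun X => ?_⟩
  have h10 : ∀ y y' : B → ℂ, y ⬝ᵥ (((act X)ᵀ * G + G * act X) *ᵥ y') = 0 := by
    intro y y'
    rw [add_mulVec, dotProduct_add, ← mulVec_mulVec, ← mulVec_mulVec, dotProduct_mulVec y,
      vecMul_transpose, h9, h9, hprj a X, hprj a' X, hΨe, hΨe, s.sp, neg_add_cancel]
  ext i j
  have h11 := h10 (Pi.single i 1) (Pi.single j 1)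
  rw [mulVec_single_one, single_one_dotProduct] at h11
  exact h11

end Pool.Agent.Q180.UW
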