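import Mathlib
import Pool.Agent.Q180.UW.Sy

/-!
# The sum of two systems of letters
-/

set_option linter.unusedSectionVars false
set_option linter.unusedVariables false

namespace Pool.Agent.Q180.UW

open Matrix Module Pool.Agent.H204R3.SP Pool.Agent.W437.HC Pool.Agent.W437.HD

namespace Sy

variable {B B1 B2 : Type} [Fintype B] [DecidableEq B] [Fintype B1] [DecidableEq B1] [Fintype B2]
  [DecidableEq B2] {L : Set (Matrix B B ℂ)} {L1 : Set (Matrix B1 B1 ℂ)} {L2 : Set (Matrix B2 B2 ℂ)}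

/-- The coordinates. -/
noncomputable def coS (S1 : Sy B1 L1) (S2 : Sy B2 L2) (P1 : Matrix B1 B ℂ) (P2 : Matrix B2 B ℂ) :
    S1.𝒜 ⊕ S2.𝒜 → S1.R ⊕ S2.R → (B → ℂ) →ₗ[ℂ] ℂ
  | Sum.inl a, Sum.inl z => S1.co a z ∘ₗ Matrix.mulVecLin P1
  | Sum.inr a, Sum.inr z => S2.co a z ∘ₗ Matrix.mulVecLin P2
  | Sum.inl _, Sum.inr _ => 0
  | Sum.inr _, Sum.inl _ => 0

/-- The vectors. -/
noncomputable def evS (S1 : Sy B1 L1) (S2 : Sy B2 L2) (P1 : Matrix B1 B ℂ) (P2 : Matrix B2 B ℂ) :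
    S1.𝒜 ⊕ S2.𝒜 → S1.R ⊕ S2.R → B → ℂ
  | Sum.inl a, Sum.inl z => P1ᵀ *ᵥ S1.ev a z
  | Sum.inr a, Sum.inr z => P2ᵀ *ᵥ S2.ev a z
  | Sum.inl _, Sum.inr _ => 0
  | Sum.inr _, Sum.inl _ => 0

variable (S1 : Sy B1 L1) (S2 : Sy B2 L2) (P1 : Matrix B1 B ℂ) (P2 : Matrix B2 B ℂ)

/-- The sum. -/
noncomputable def sum
    (htot : P1ᵀ * P1 + P2ᵀ * P2 = 1) (hadd : ∀ X ∈ L, ∀ Y ∈ L, X + Y ∈ L)
    (hL1 : ∀ W ∈ L1, ∃ X ∈ L, X * P1ᵀ = P1ᵀ * W ∧ X * P2ᵀ = 0)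
    (hL2 : ∀ W ∈ L2, ∃ X ∈ L, X * P1ᵀ = 0 ∧ X * P2ᵀ = P2ᵀ * W) : Sy B L where
  P := S1.P ⊕ S2.P
  R := S1.R ⊕ S2.R
  𝒜 := S1.𝒜 ⊕ S2.𝒜
  b := Sum.map S1.b S2.b
  cls := Sum.map S1.cls S2.cls
  inv := Sum.map S1.inv S2.inv
  jj := Sum.elim S1.jj S2.jj
  cl := Sum.map S1.cl S2.cl
  co := coS S1 S2 P1 P2
  ev := evS S1 S2 P1 P2
  wt := Sum.elim S1.wt S2.wt
  hbb := by
    rintro (p | p)
    · simp [S1.hbb]
    · simp [S2.hbb]
  hinv := by
    rintro (p | p)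
    · simp [S1.hinv]
    · simp [S2.hinv]
  hne := by
    rintro (p | p) h
    · exact S1.hne p (Sum.inl_injective h)
    · exact S2.hne p (Sum.inr_injective h)
  hjj := by
    rintro (p | p)
    · exact S1.hjj p
    · exact S2.hjj p
  hj0 := by
    rintro (p | p)
    · exact S1.hj0 p
    · exact S2.hj0 p
  hci := by
    rintro (p | p)
    · exact congrArg Sum.inl (S1.hci p)
    · exact congrArg Sum.inr (S2.hci p)
  tot := by
    intro v
    rw [Fintype.sum_sum_type]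
    have e1 : ∑ a, ∑ z, coS S1 S2 P1 P2 (Sum.inl a) z v • evS S1 S2 P1 P2 (Sum.inl a) z =
        P1ᵀ *ᵥ (P1 *ᵥ v) := by
      conv_rhs => rw [S1.tot (P1 *ᵥ v)]
      rw [mulVec_sum]
      refine Finset.sum_congr rfl fun a _ => ?_
      rw [Fintype.sum_sum_type, mulVec_sum]
      have e2 : ∑ z : S2.R, coS S1 S2 P1 P2 (Sum.inl a) (Sum.inr z) v •
          evS S1 S2 P1 P2 (Sum.inl a) (Sum.inr z) = 0 :=
        Finset.sum_eq_zero fun z _ => by
          change (0 : ℂ) • (0 : B → ℂ) = 0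
          rw [zero_smul]
      rw [e2, add_zero]
      refine Finset.sum_congr rfl fun z _ => ?_
      rw [mulVec_smul]
      rfl
    have e3 : ∑ a, ∑ z, coS S1 S2 P1 P2 (Sum.inr a) z v • evS S1 S2 P1 P2 (Sum.inr a) z =
        P2ᵀ *ᵥ (P2 *ᵥ v) := by
      conv_rhs => rw [S2.tot (P2 *ᵥ v)]
      rw [mulVec_sum]
      refine Finset.sum_congr rfl fun a _ => ?_
      rw [Fintype.sum_sum_type, mulVec_sum]
      have e2 : ∑ z : S1.R, coS S1 S2 P1 P2 (Sum.inr a) (Sum.inl z) v •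
          evS S1 S2 P1 P2 (Sum.inr a) (Sum.inl z) = 0 :=
        Finset.sum_eq_zero fun z _ => by
          change (0 : ℂ) • (0 : B → ℂ) = 0
          rw [zero_smul]
      rw [e2, zero_add]
      refine Finset.sum_congr rfl fun z _ => ?_
      rw [mulVec_smul]
      rfl
    rw [e1, e3, mulVec_mulVec, mulVec_mulVec, ← add_mulVec, htot, one_mulVec]
  hev := by
    rintro (a | a) (z | z) h
    · change P1ᵀ *ᵥ S1.ev a z = 0
      rw [S1.hev a z fun h' => h (congrArg Sum.inl h'), mulVec_zero]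
    · rfl
    · rfl
    · change P2ᵀ *ᵥ S2.ev a z = 0
      rw [S2.hev a z fun h' => h (congrArg Sum.inr h'), mulVec_zero]
  hco := by
    rintro (a | a) (z | z) h
    · change S1.co a z ∘ₗ Matrix.mulVecLin P1 = 0
      rw [S1.hco a z fun h' => h (congrArg Sum.inl h'), LinearMap.zero_comp]
    · rfl
    · rfl
    · change S2.co a z ∘ₗ Matrix.mulVecLin P2 = 0
      rw [S2.hco a z fun h' => h (congrArg Sum.inr h'), LinearMap.zero_comp]
  root := by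
    have hz : ∀ (R R' : Type) [DecidableEq R] [DecidableEq R'] (i : R → R) (i' : R' → R')
        (j : R → ℂ) (j' : R' → ℂ),
        (∀ x y, JJ (Sum.map i i') (Sum.elim j j') (Sum.inl x) (Sum.inl y) = JJ i j x y) ∧
        (∀ x y, JJ (Sum.map i i') (Sum.elim j j') (Sum.inr x) (Sum.inr y) = JJ i' j' x y) ∧
        (∀ x y, JJ (Sum.map i i') (Sum.elim j j') (Sum.inl x) (Sum.inr y) = 0) ∧
        (∀ x y, JJ (Sum.map i i') (Sum.elim j j') (Sum.inr x) (Sum.inl y) = 0) := by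
      intro R R' _ _ i i' j j'
      refine ⟨fun x y => ?_, fun x y => ?_, fun x y => ?_, fun x y => ?_⟩ <;> simp [JJ]
    rintro (x | x) (y | y) h1 h2
    · obtain ⟨W, hW, hW2⟩ := S1.root x y (Sum.inl_injective h1) (by
        rcases h2 with h2 | h2
        · left
          intro h
          exact h2 (congrArg Sum.inl h)
        · right
          exact Sum.inl_injective h2)
      obtain ⟨X, hX, hX1, hX2⟩ := hL1 W hW
      refine ⟨X, hX, ?_⟩
      rintro (a | a) (z | z)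
      · rw [(hz _ _ _ _ _ _).1, (hz _ _ _ _ _ _).1]
        change X *ᵥ (P1ᵀ *ᵥ S1.ev a z) = _ • (P1ᵀ *ᵥ S1.ev a x) + _ • (P1ᵀ *ᵥ S1.ev a y)
        rw [mulVec_mulVec, hX1, ← mulVec_mulVec, hW2, mulVec_add, mulVec_smul, mulVec_smul]
      · rw [(hz _ _ _ _ _ _).2.2.1, (hz _ _ _ _ _ _).2.2.1, zero_smul, zero_smul, add_zero]
        change X *ᵥ 0 = 0
        rw [mulVec_zero]
      · rw [(hz _ _ _ _ _ _).1, (hz _ _ _ _ _ _).1]
        change X *ᵥ 0 = _ • (0 : B → ℂ) + _ • (0 : B → ℂ)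
        rw [mulVec_zero, smul_zero, smul_zero, add_zero]
      · rw [(hz _ _ _ _ _ _).2.2.1, (hz _ _ _ _ _ _).2.2.1, zero_smul, zero_smul, add_zero]
        change X *ᵥ (P2ᵀ *ᵥ S2.ev a z) = 0
        rw [mulVec_mulVec, hX2, zero_mulVec]
    · simp at h1
    · simp at h1
    · obtain ⟨W, hW, hW2⟩ := S2.root x y (Sum.inr_injective h1) (by
        rcases h2 with h2 | h2
        · left
          intro h
          exact h2 (congrArg Sum.inr h)
        · right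
          exact Sum.inr_injective h2)
      obtain ⟨X, hX, hX1, hX2⟩ := hL2 W hW
      refine ⟨X, hX, ?_⟩
      rintro (a | a) (z | z)
      · rw [(hz _ _ _ _ _ _).2.2.2, (hz _ _ _ _ _ _).2.2.2, zero_smul, zero_smul, add_zero]
        change X *ᵥ (P1ᵀ *ᵥ S1.ev a z) = 0
        rw [mulVec_mulVec, hX1, zero_mulVec]
      · rw [(hz _ _ _ _ _ _).2.1, (hz _ _ _ _ _ _).2.1]
        change X *ᵥ 0 = _ • (0 : B → ℂ) + _ • (0 : B → ℂ)
        rw [mulVec_zero, smul_zero, smul_zero, add_zero]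
      · rw [(hz _ _ _ _ _ _).2.2.2, (hz _ _ _ _ _ _).2.2.2, zero_smul, zero_smul, add_zero]
        change X *ᵥ 0 = 0
        rw [mulVec_zero]
      · rw [(hz _ _ _ _ _ _).2.1, (hz _ _ _ _ _ _).2.1]
        change X *ᵥ (P2ᵀ *ᵥ S2.ev a z) = _ • (P2ᵀ *ᵥ S2.ev a x) + _ • (P2ᵀ *ᵥ S2.ev a y)
        rw [mulVec_mulVec, hX2, ← mulVec_mulVec, hW2, mulVec_add, mulVec_smul, mulVec_smul]
  tor := by
    intro σ
    obtain ⟨W1, hW1, hW1'⟩ := S1.tor σ
    obtain ⟨W2, hW2, hW2'⟩ := S2.tor σ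
    obtain ⟨X1, hX1, hX11, hX12⟩ := hL1 W1 hW1
    obtain ⟨X2, hX2, hX21, hX22⟩ := hL2 W2 hW2
    refine ⟨X1 + X2, hadd _ hX1 _ hX2, ?_⟩
    rintro (a | a) (z | z)
    · change (X1 + X2) *ᵥ (P1ᵀ *ᵥ S1.ev a z) = S1.wt (S1.cls z) σ • (P1ᵀ *ᵥ S1.ev a z)
      rw [mulVec_mulVec, Matrix.add_mul, hX11, hX21, add_zero, ← mulVec_mulVec, hW1', mulVec_smul]
    · change (X1 + X2) *ᵥ (0 : B → ℂ) = _ • (0 : B → ℂ)
      rw [mulVec_zero, smul_zero]
    · change (X1 + X2) *ᵥ (0 : B → ℂ) = _ • (0 : B → ℂ)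
      rw [mulVec_zero, smul_zero]
    · change (X1 + X2) *ᵥ (P2ᵀ *ᵥ S2.ev a z) = S2.wt (S2.cls z) σ • (P2ᵀ *ᵥ S2.ev a z)
      rw [mulVec_mulVec, Matrix.add_mul, hX12, hX22, zero_add, ← mulVec_mulVec, hW2', mulVec_smul]
  hwt := by
    rintro (p | p) σ
    · exact S1.hwt p σ
    · exact S2.hwt p σ

variable (htot : P1ᵀ * P1 + P2ᵀ * P2 = 1) (hadd : ∀ X ∈ L, ∀ Y ∈ L, X + Y ∈ L)
  (hL1 : ∀ W ∈ L1, ∃ X ∈ L, X * P1ᵀ = P1ᵀ * W ∧ X * P2ᵀ = 0)
  (hL2 : ∀ W ∈ L2, ∃ X ∈ L, X * P1ᵀ = 0 ∧ X * P2ᵀ = P2ᵀ * W)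

theorem sum_form_inl (p : S1.P) (a a' : S1.𝒜 ⊕ S2.𝒜) (y y' : B → ℂ) :
    (sum S1 S2 P1 P2 htot hadd hL1 hL2).form (Sum.inl p) a a' y y' =
      Sum.elim (fun a => Sum.elim (fun a' => S1.form p a a' (P1 *ᵥ y) (P1 *ᵥ y'))
        (fun _ => 0) a') (fun _ => 0) a := by
  have e0 : (sum S1 S2 P1 P2 htot hadd hL1 hL2).form (Sum.inl p) a a' y y' =
      ∑ z : S1.R ⊕ S2.R, if Sum.map S1.cls S2.cls z = Sum.inl p then Sum.elim S1.jj S2.jj z *
        (coS S1 S2 P1 P2 a z y * coS S1 S2 P1 P2 a' (Sum.map S1.inv S2.inv z) y') else 0 := rfl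
  rw [e0, Fintype.sum_sum_type]
  have e1 : ∑ z : S2.R, (if Sum.map S1.cls S2.cls (Sum.inr z) = Sum.inl p then
      Sum.elim S1.jj S2.jj (Sum.inr z) *
        (coS S1 S2 P1 P2 a (Sum.inr z) y * coS S1 S2 P1 P2 a'
          (Sum.map S1.inv S2.inv (Sum.inr z)) y') else 0) = 0 :=
    Finset.sum_eq_zero fun z _ => by
      rw [if_neg]
      simp
  rw [e1, add_zero]
  rcases a with a | a
  · rcases a' with a' | a'
    · change _ = S1.form p a a' (P1 *ᵥ y) (P1 *ᵥ y')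
      unfold form
      refine Finset.sum_congr rfl fun z _ => ?_
      by_cases h : S1.cls z = p
      · rw [if_pos h, Sum.map_inl, if_pos (congrArg Sum.inl h)]
        rfl
      · rw [if_neg h, Sum.map_inl, if_neg fun h' => h (Sum.inl_injective h')]
    · change _ = (0 : ℂ)
      refine Finset.sum_eq_zero fun z _ => ?_
      have h3 : coS S1 S2 P1 P2 (Sum.inr a') (Sum.map S1.inv S2.inv (Sum.inl z)) y' = 0 := rfl
      rw [h3, mul_zero, mul_zero, ite_self]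
  · change _ = (0 : ℂ)
    refine Finset.sum_eq_zero fun z _ => ?_
    have h3 : coS S1 S2 P1 P2 (Sum.inr a) (Sum.inl z) y = 0 := rfl
    rw [h3, zero_mul, mul_zero, ite_self]

theorem sum_form_inr (p : S2.P) (a a' : S1.𝒜 ⊕ S2.𝒜) (y y' : B → ℂ) :
    (sum S1 S2 P1 P2 htot hadd hL1 hL2).form (Sum.inr p) a a' y y' =
      Sum.elim (fun _ => 0) (fun a => Sum.elim (fun _ => 0)
        (fun a' => S2.form p a a' (P2 *ᵥ y) (P2 *ᵥ y')) a') a := by
  have e0 : (sum S1 S2 P1 P2 htot hadd hL1 hL2).form (Sum.inr p) a a' y y' =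
      ∑ z : S1.R ⊕ S2.R, if Sum.map S1.cls S2.cls z = Sum.inr p then Sum.elim S1.jj S2.jj z *
        (coS S1 S2 P1 P2 a z y * coS S1 S2 P1 P2 a' (Sum.map S1.inv S2.inv z) y') else 0 := rfl
  rw [e0, Fintype.sum_sum_type]
  have e1 : ∑ z : S1.R, (if Sum.map S1.cls S2.cls (Sum.inl z) = Sum.inr p then
      Sum.elim S1.jj S2.jj (Sum.inl z) *
        (coS S1 S2 P1 P2 a (Sum.inl z) y * coS S1 S2 P1 P2 a'
          (Sum.map S1.inv S2.inv (Sum.inl z)) y') else 0) = 0 :=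
    Finset.sum_eq_zero fun z _ => by
      rw [if_neg]
      simp
  rw [e1, zero_add]
  rcases a with a | a
  · change _ = (0 : ℂ)
    refine Finset.sum_eq_zero fun z _ => ?_
    have h3 : coS S1 S2 P1 P2 (Sum.inl a) (Sum.inr z) y = 0 := rfl
    rw [h3, zero_mul, mul_zero, ite_self]
  · rcases a' with a' | a'
    · change _ = (0 : ℂ)
      refine Finset.sum_eq_zero fun z _ => ?_
      have h3 : coS S1 S2 P1 P2 (Sum.inl a') (Sum.map S1.inv S2.inv (Sum.inr z)) y' = 0 := rfl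
      rw [h3, mul_zero, mul_zero, ite_self]
    · change _ = S2.form p a a' (P2 *ᵥ y) (P2 *ᵥ y')
      unfold form
      refine Finset.sum_congr rfl fun z _ => ?_
      by_cases h : S2.cls z = p
      · rw [if_pos h, Sum.map_inr, if_pos (congrArg Sum.inr h)]
        rfl
      · rw [if_neg h, Sum.map_inr, if_neg fun h' => h (Sum.inr_injective h')]

end Sy

end Pool.Agent.Q180.UW
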