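import Mathlib
import Pool.Agent.Q180.UW.Close
import Pool.Agent.Q180.UW.Exp
import Pool.Agent.Q222.UW.Gen1
import Pool.Agent.Q222.UW.Ins
import Pool.Agent.Q222.UW.Pol
import Pool.Agent.Q222.UW.Weil
import Pool.Agent.Q222.UW.Utr
import Pool.Agent.Q222.UW.Lab
import Pool.Agent.Q222.UW.Aln
import Pool.Agent.Q222.UW.Conv
import Pool.Agent.Q84.UW.Pow
import Pool.Agent.Q210.UW.Bal
import Pool.Agent.Q144.UW.Mul
import Pool.Agent.Q144.UW.Pcs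
import Pool.Agent.Q144.UW.Split
import Pool.Agent.Q211.WT.Tor
import Pool.Agent.Q60.D3.NF
import Pool.Agent.Q180.D3.CMD
import Pool.Agent.Q280.D3C.Cmd
import Pool.Agent.Q280.D3.Wgt
import Pool.Agent.Q210.D3.L0
import Pool.Agent.Q210.UW.Famc
import Pool.Agent.Q210.UW.Famu
import Pool.Agent.Q2.UW.Lin
import Pool.Agent.Q2.UW.Kil
import Pool.Agent.Q182.UW.Odd
import Pool.Agent.Q275.UW.Pla3
import Pool.Agent.Q275.UW.Prime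

/-!
# The main theorem
-/

namespace Pool.Agent.Q180.UW

open Matrix Module Pool.Agent.H204R3.CM Pool.Agent.W437.HC Pool.Agent.W437.HD
open Pool.Agent.Q60.D3 (AV IsHom IsCM IsSimple IsIsogenousToProd)

theorem bal : S_bal :=
  Pool.Agent.Q210.UW.bal Pool.Agent.Q222.UW.good_alt Pool.Agent.Q222.UW.good_lin
    Pool.Agent.Q222.UW.good_reindex Pool.Agent.Q222.UW.good_mul Pool.Agent.Q222.UW.good_pull
    (Pool.Agent.Q222.UW.ins Pool.Agent.Q222.UW.good_alt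
      Pool.Agent.Q222.UW.good_lin Pool.Agent.Q222.UW.good_reindex Pool.Agent.Q222.UW.good_mul
      Pool.Agent.Q222.UW.good_pull)
    Pool.Agent.Q222.UW.pol'
    (Pool.Agent.Q222.UW.weil Pool.Agent.Q210.D3.L0 Pool.Agent.Q210.D3.hodge)
    Pool.Agent.Q84.UW.pow Pool.Agent.Q210.D3.L0 Pool.Agent.Q210.D3.hodge

/-- **The Hodge classes are generated.** -/
theorem main' (hkil : S_kil) (hfamc : S_famc) (hfamu : S_famu) (hodd : S_odd) (hprime : S_prime)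
    (𝒲 : Set (ℕ × ℕ)) (𝒞 : AV → Prop)
    (h𝒞 : ∀ (e M : ℕ) (B : AV), (e, M) ∈ 𝒲 → IsCM B → 2 * finrank ℂ B.T = e → 𝒞 B)
    (ι : Type) [Finite ι] (X : AV) (A : ι → AV) (hiso : IsIsogenousToProd X A)
    (hA : ∀ i, (IsCM (A i) ∧ 𝒞 (A i)) ∨ (∃ e M, (e, M) ∈ 𝒲 ∧ IsUnitary (A i) e M) ∨
      (IsSimple (A i) ∧ (finrank ℂ (A i).T = 1 ∨ (finrank ℂ (A i).T).Prime) ∧ ¬ IsCM (A i) ∧
        ¬ ∃ e M, IsUnitary (A i) e M) ∨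
      (Odd (finrank ℂ (A i).T) ∧
        ∀ h : (A i).H →ₗ[ℚ] (A i).H, IsHom (A i) (A i) h → ∃ a : ℚ, h = a • LinearMap.id))
    (κ : Type) [Finite κ] (f : X.H [⋀^κ]→ₗ[ℚ] ℚ) : IsHodge X.per f ↔ Gen 𝒲 𝒞 X κ f := by
  refine ⟨fun hf => ?_, fun hf => Pool.Agent.Q222.UW.conv 𝒲 𝒞 X κ f hf inferInstance⟩
  have hexp : S_exp := exp (Pool.Agent.Q144.UW.split hkil) Pool.Agent.Q222.UW.lab
    Pool.Agent.Q211.WT.memtr Pool.Agent.Q211.WT.tor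
  exact close 𝒲 𝒞 h𝒞 Pool.Agent.Q60.D3.NF.nf hfamc hfamu hodd hprime Pool.Agent.Q222.UW.utr
    Pool.Agent.Q280.D3C.Cmd.cmd Pool.Agent.Q180.D3.cmd Pool.Agent.Q144.UW.pcs
    Pool.Agent.Q222.UW.desc Pool.Agent.Q222.UW.good_alt Pool.Agent.Q222.UW.good_lin hexp
    Pool.Agent.Q222.UW.aln Pool.Agent.Q280.D3.wgt Pool.Agent.Q280.D3.ish bal ι X A hiso hA κ f hf

/-- **The Hodge classes are generated.** -/
theorem main (𝒲 : Set (ℕ × ℕ)) (𝒞 : AV → Prop)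
    (h𝒞 : ∀ (e M : ℕ) (B : AV), (e, M) ∈ 𝒲 → IsCM B → 2 * finrank ℂ B.T = e → 𝒞 B)
    (ι : Type) [Finite ι] (X : AV) (A : ι → AV) (hiso : IsIsogenousToProd X A)
    (hA : ∀ i, (IsCM (A i) ∧ 𝒞 (A i)) ∨ (∃ e M, (e, M) ∈ 𝒲 ∧ IsUnitary (A i) e M) ∨
      (IsSimple (A i) ∧ (finrank ℂ (A i).T = 1 ∨ (finrank ℂ (A i).T).Prime) ∧ ¬ IsCM (A i) ∧
        ¬ ∃ e M, IsUnitary (A i) e M) ∨
      (Odd (finrank ℂ (A i).T) ∧
        ∀ h : (A i).H →ₗ[ℚ] (A i).H, IsHom (A i) (A i) h → ∃ a : ℚ, h = a • LinearMap.id))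
    (κ : Type) [Finite κ] (f : X.H [⋀^κ]→ₗ[ℚ] ℚ) : IsHodge X.per f ↔ Gen 𝒲 𝒞 X κ f :=
  main' (Pool.Agent.Q2.UW.kil Pool.Agent.Q211.WT.memtr) Pool.Agent.Q210.UW.famc
    (Pool.Agent.Q210.UW.famu Pool.Agent.Q2.UW.lin Pool.Agent.Q144.UW.mul) Q182.UW.odd
    (Pool.Agent.Q275.UW.prime Pool.Agent.Q275.UW.pla Q182.UW.odd
      Pool.Agent.Q211.WT.memtr Pool.Agent.Q2.UW.lin Pool.Agent.Q144.UW.mul)
    𝒲 𝒞 h𝒞 ι X A hiso hA κ f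

end Pool.Agent.Q180.UW
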